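import Mathlib

/-!
# Geometric polyhedra in hyperbolic 3-space (MP_397744_co): definitions

Hyperbolic space is the upper sheet of the hyperboloid in `ℝ⁴`; abstract polyhedra are partially ordered sets
with a rank function; a realization sends vertices to points of `H3`.
-/

namespace Pool.Agent.H57.CP

/-- `ℝ⁴`, the last coordinate is the time coordinate -/
abbrev V4 := Fin 4 → ℝ

/-- the Minkowski product -/
def mk (x y : V4) : ℝ := x 3 * y 3 - x 0 * y 0 - x 1 * y 1 - x 2 * y 2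

/-- hyperbolic 3-space: the points of the hyperboloid `mk x x = 1` with positive time coordinate -/
def H3 : Type := {x : V4 // mk x x = 1 ∧ 0 < x 3}

/-- the hyperbolic cosine of the distance of two points -/
def ch (x y : H3) : ℝ := mk x.1 y.1

/-- isometries of hyperbolic 3-space: the bijections which preserve (the hyperbolic cosine of) the distance -/
def IsIso (g : Equiv.Perm H3) : Prop := ∀ x y, ch (g x) (g y) = ch x y

/-! ## Abstract polyhedra and their realizations, as in the problem -/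

/-- abstract polyhedra: partially ordered sets with a strictly monotone rank function onto `{-1, 0, 1, 2, 3}`, a least face
of rank `-1` and a greatest face of rank `3`; flags (maximal chains) have one face of each rank; the diamond
condition; strong connectivity -/
structure IsPolyhedron (P : Type) [PartialOrder P] [BoundedOrder P] (rk : P → ℤ) : Prop where
  mono : StrictMono rk
  bot : rk ⊥ = -1
  top : rk ⊤ = 3
  flags : ∀ C : Flag P, ∀ i ∈ ({-1, 0, 1, 2, 3} : Set ℤ), ∃! x, x ∈ C ∧ rk x = i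
  diamond : ∀ x y : P, x < y → rk y - rk x = 2 → (Set.Ioo x y).ncard = 2
  conn : ∀ x y : P, x < y → 3 ≤ rk y - rk x → ∀ a ∈ Set.Ioo x y, ∀ b ∈ Set.Ioo x y,
    Relation.ReflTransGen (fun c d => d ∈ Set.Ioo x y ∧ (c ≤ d ∨ d ≤ c)) a b

variable {P : Type} [PartialOrder P]

/-- the image of an edge: the set of the images of its two vertices (it determines and is determined by the
geodesic segment between them) -/
def im1 (rk : P → ℤ) (β : P → H3) (e : P) : Set H3 := β '' {v | rk v = 0 ∧ v < e}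

/-- the image of a face of rank 2: the set of the images of its edges -/
def im2 (rk : P → ℤ) (β : P → H3) (f : P) : Set (Set H3) := im1 rk β '' {e | rk e = 1 ∧ e < f}

/-- faithful realizations with discrete vertex set; only the values of `β` at the vertices matter -/
structure IsFaithful (rk : P → ℤ) (β : P → H3) : Prop where
  discrete : ∀ v, rk v = 0 → ∃ ε : ℝ, 0 < ε ∧ ∀ w, rk w = 0 → β w ≠ β v → 1 + ε ≤ ch (β v) (β w)
  inj0 : ∀ v w, rk v = 0 → rk w = 0 → β v = β w → v = w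
  inj1 : ∀ e e', rk e = 1 → rk e' = 1 → im1 rk β e = im1 rk β e' → e = e'
  inj2 : ∀ f f', rk f = 2 → rk f' = 2 → im2 rk β f = im2 rk β f' → f = f'

/-- symmetries of a realization: isometries which permute the vertices, the edges and the faces -/
structure IsSymmetry (rk : P → ℤ) (β : P → H3) (g : Equiv.Perm H3) : Prop where
  iso : IsIso g
  s0 : g '' (β '' {v | rk v = 0}) = β '' {v | rk v = 0}
  s1 : (Set.image g) '' (im1 rk β '' {e | rk e = 1}) = im1 rk β '' {e | rk e = 1}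
  s2 : (Set.image (Set.image g)) '' (im2 rk β '' {f | rk f = 2}) = im2 rk β '' {f | rk f = 2}

/-- flags without their least and greatest faces: vertex, edge and face which are incident -/
def IsFlag (rk : P → ℤ) (Φ : P × P × P) : Prop :=
  rk Φ.1 = 0 ∧ rk Φ.2.1 = 1 ∧ rk Φ.2.2 = 2 ∧ Φ.1 < Φ.2.1 ∧ Φ.2.1 < Φ.2.2

/-- adjacent flags differ in exactly one face -/
def Adjacent {A B C : Type} (Φ Ψ : A × B × C) : Prop :=
  (Φ.1 ≠ Ψ.1 ∧ Φ.2.1 = Ψ.2.1 ∧ Φ.2.2 = Ψ.2.2) ∨ (Φ.1 = Ψ.1 ∧ Φ.2.1 ≠ Ψ.2.1 ∧ Φ.2.2 = Ψ.2.2) ∨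
    (Φ.1 = Ψ.1 ∧ Φ.2.1 = Ψ.2.1 ∧ Φ.2.2 ≠ Ψ.2.2)

/-- a symmetry maps the flag `Φ` to the flag `Ψ` -/
def SameOrbit (rk : P → ℤ) (β : P → H3) (Φ Ψ : P × P × P) : Prop :=
  ∃ g : Equiv.Perm H3, IsSymmetry rk β g ∧ g (β Φ.1) = β Ψ.1 ∧ g '' (im1 rk β Φ.2.1) = im1 rk β Ψ.2.1 ∧
    (Set.image g) '' (im2 rk β Φ.2.2) = im2 rk β Ψ.2.2

/-- geometrically chiral: exactly two orbits of flags, and adjacent flags are in different orbits -/
structure IsChiral (rk : P → ℤ) (β : P → H3) : Prop where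
  two : ∃ Φ Ψ, IsFlag rk Φ ∧ IsFlag rk Ψ ∧ ¬ SameOrbit rk β Φ Ψ
  le_two : ∀ Φ Ψ Θ, IsFlag rk Φ → IsFlag rk Ψ → IsFlag rk Θ →
    SameOrbit rk β Φ Ψ ∨ SameOrbit rk β Ψ Θ ∨ SameOrbit rk β Φ Θ
  adj : ∀ Φ Ψ, IsFlag rk Φ → IsFlag rk Ψ → Adjacent Φ Ψ → ¬ SameOrbit rk β Φ Ψ

/-- Schläfli type `{p, q}`: every face has `p` vertices and every vertex lies on `q` edges -/
def HasType (rk : P → ℤ) (p q : ℕ∞) : Prop :=
  (∀ f, rk f = 2 → {v | rk v = 0 ∧ v < f}.encard = p) ∧ (∀ v, rk v = 0 → {e | rk e = 1 ∧ v < e}.encard = q)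

/-- there is a geometrically chiral polyhedron of type `{p, q}` in hyperbolic 3-space -/
def ChiralOfType (p q : ℕ∞) : Prop :=
  ∃ (P : Type) (_ : PartialOrder P) (_ : BoundedOrder P) (rk : P → ℤ) (β : P → H3),
    IsPolyhedron P rk ∧ IsFaithful rk β ∧ IsChiral rk β ∧ HasType rk p q

/-- there is a geometrically chiral polyhedron of type `{p, q}` in hyperbolic 3-space, whose edges have length
`arcosh L` -/
def ExistsChiral (p q : ℕ∞) (L : ℝ) : Prop :=
  ∃ (P : Type) (_ : PartialOrder P) (_ : BoundedOrder P) (rk : P → ℤ) (β : P → H3),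
    IsPolyhedron P rk ∧ IsFaithful rk β ∧ IsChiral rk β ∧ HasType rk p q ∧
    ∀ e v w, rk e = 1 → rk v = 0 → rk w = 0 → v < e → w < e → v ≠ w → ch (β v) (β w) = L

/-- the Schläfli types which occur: `q` is finite and at least 3, and either `p` is infinite or `p` and `q` are even,
at least 4 and not both 4 -/
def Admissible (p q : ℕ∞) : Prop :=
  3 ≤ q ∧ q ≠ ⊤ ∧ (p = ⊤ ∨ ∃ a b : ℕ, p = (2 * a : ℕ) ∧ q = (2 * b : ℕ) ∧ 2 ≤ a ∧ 2 ≤ b ∧ ¬ (a = 2 ∧ b = 2))

/-- THE THEOREM: the Schläfli types of geometrically chiral polyhedra in hyperbolic 3-space; for each of them the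
edge lengths fill an interval (so there are uncountably many such polyhedra up to isometry) -/
def Main : Prop := ∀ p q : ℕ∞, (ChiralOfType p q ↔ Admissible p q) ∧
  (Admissible p q → ∃ A B : ℝ, 1 < A ∧ A < B ∧ ∀ L ∈ Set.Ioo A B, ExistsChiral p q L)

end Pool.Agent.H57.CP
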