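import Mathlib
import Pool.Agent.H57.CP.Defs

/-!
# Geometric polyhedra in hyperbolic 3-space: set form and tools
-/

namespace Pool.Agent.H57.CP

/-! ## Polyhedra in set form -/

/-- vertices, edges (pairs of vertices), faces (sets of edges) -/
structure Geo where
  V : Set H3
  E : Set (Set H3)
  F : Set (Set (Set H3))

structure IsGeo (K : Geo) : Prop where
  ne : K.V.Nonempty
  ed : ∀ e ∈ K.E, ∃ x ∈ K.V, ∃ y ∈ K.V, x ≠ y ∧ e = {x, y}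
  fs : ∀ f ∈ K.F, f ⊆ K.E ∧ f.Nonempty
  ve : ∀ x ∈ K.V, ∃ e ∈ K.E, x ∈ e
  ef : ∀ e ∈ K.E, {f | f ∈ K.F ∧ e ∈ f}.ncard = 2
  vf : ∀ f ∈ K.F, ∀ e ∈ f, ∀ x ∈ e, {e' | e' ∈ f ∧ x ∈ e'}.ncard = 2
  cf : ∀ f ∈ K.F, ∀ e ∈ f, ∀ e' ∈ f, Relation.ReflTransGen (fun a b => b ∈ f ∧ (a ∩ b).Nonempty) e e'
  cv : ∀ x ∈ K.V, ∀ e ∈ K.E, x ∈ e → ∀ e' ∈ K.E, x ∈ e' →
    Relation.ReflTransGen (fun a b => x ∈ b ∧ ∃ f ∈ K.F, a ∈ f ∧ b ∈ f) e e'
  cc : ∀ x ∈ K.V, ∀ y ∈ K.V, Relation.ReflTransGen (fun a b => ({a, b} : Set H3) ∈ K.E) x y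
  dis : ∀ x ∈ K.V, ∃ ε : ℝ, 0 < ε ∧ ∀ y ∈ K.V, y ≠ x → 1 + ε ≤ ch x y

/-- flags: vertex, edge, face -/
abbrev Fg := H3 × Set H3 × Set (Set H3)

def Fl (K : Geo) (Φ : Fg) : Prop := Φ.1 ∈ Φ.2.1 ∧ Φ.2.1 ∈ Φ.2.2 ∧ Φ.2.2 ∈ K.F

/-- adjacent flags, with different vertices -/
def A0 (K : Geo) (Φ Ψ : Fg) : Prop := Fl K Φ ∧ Fl K Ψ ∧ Φ.1 ≠ Ψ.1 ∧ Φ.2.1 = Ψ.2.1 ∧ Φ.2.2 = Ψ.2.2
/-- adjacent flags, with different edges -/
def A1 (K : Geo) (Φ Ψ : Fg) : Prop := Fl K Φ ∧ Fl K Ψ ∧ Φ.1 = Ψ.1 ∧ Φ.2.1 ≠ Ψ.2.1 ∧ Φ.2.2 = Ψ.2.2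
/-- adjacent flags, with different faces -/
def A2 (K : Geo) (Φ Ψ : Fg) : Prop := Fl K Φ ∧ Fl K Ψ ∧ Φ.1 = Ψ.1 ∧ Φ.2.1 = Ψ.2.1 ∧ Φ.2.2 ≠ Ψ.2.2

/-- action of bijections on flags -/
def act (g : Equiv.Perm H3) (Φ : Fg) : Fg := (g Φ.1, g '' Φ.2.1, (Set.image g) '' Φ.2.2)

/-- symmetries -/
structure Sy (K : Geo) (g : Equiv.Perm H3) : Prop where
  iso : IsIso g
  v : ∀ x, g x ∈ K.V ↔ x ∈ K.V
  e : ∀ e : Set H3, g '' e ∈ K.E ↔ e ∈ K.E
  f : ∀ f : Set (Set H3), (Set.image g) '' f ∈ K.F ↔ f ∈ K.F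

def Eqv (K : Geo) (Φ Ψ : Fg) : Prop := ∃ g, Sy K g ∧ act g Φ = Ψ

structure Chi (K : Geo) : Prop where
  two : ∃ Φ Ψ, Fl K Φ ∧ Fl K Ψ ∧ ¬ Eqv K Φ Ψ
  le_two : ∀ Φ Ψ Θ, Fl K Φ → Fl K Ψ → Fl K Θ → Eqv K Φ Ψ ∨ Eqv K Ψ Θ ∨ Eqv K Φ Θ
  adj : ∀ Φ Ψ, Fl K Φ → Fl K Ψ → Adjacent Φ Ψ → ¬ Eqv K Φ Ψ

def Ty (K : Geo) (p q : ℕ∞) : Prop :=
  (∀ f ∈ K.F, {x | ∃ e ∈ f, x ∈ e}.encard = p) ∧ (∀ x ∈ K.V, {e | e ∈ K.E ∧ x ∈ e}.encard = q)

def EdgeLen (K : Geo) (L : ℝ) : Prop := ∀ e ∈ K.E, ∀ x ∈ e, ∀ y ∈ e, x ≠ y → ch x y = L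

/-- the set form of a realization -/
def Kof {P : Type} [PartialOrder P] (rk : P → ℤ) (β : P → H3) : Geo :=
  ⟨β '' {v | rk v = 0}, im1 rk β '' {e | rk e = 1}, im2 rk β '' {f | rk f = 2}⟩

/-- the cells of a polyhedron in set form -/
inductive Cell (K : Geo) : Type
  | bot : Cell K
  | vt (x : H3) (h : x ∈ K.V) : Cell K
  | ed (a : Set H3) (h : a ∈ K.E) : Cell K
  | fc (b : Set (Set H3)) (h : b ∈ K.F) : Cell K
  | top : Cell K

namespace Cell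

variable {K : Geo}

def rk : Cell K → ℤ
  | bot => -1
  | vt _ _ => 0
  | ed _ _ => 1
  | fc _ _ => 2
  | top => 3

def Le : Cell K → Cell K → Prop
  | bot, _ => True
  | _, top => True
  | vt x _, vt y _ => x = y
  | vt x _, ed a _ => x ∈ a
  | vt x _, fc b _ => ∃ a ∈ b, x ∈ a
  | ed a _, ed a' _ => a = a'
  | ed a _, fc b _ => a ∈ b
  | fc b _, fc b' _ => b = b'
  | _, _ => False

instance : PartialOrder (Cell K) where
  le := Le
  le_refl := by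
    intro x
    cases x <;> simp [Le]
  le_trans := by
    intro x y z hxy hyz
    cases x <;> cases y <;> cases z <;> simp_all [Le] <;> tauto
  le_antisymm := by
    intro x y hxy hyx
    cases x <;> cases y <;> simp_all [Le]

theorem le_def (x y : Cell K) : x ≤ y ↔ Le x y := Iff.rfl

instance : BoundedOrder (Cell K) where
  top := top
  le_top := by intro x; cases x <;> simp [le_def, Le]
  bot := bot
  bot_le := by intro x; cases x <;> simp [le_def, Le]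

open Classical in
/-- the realization; `o` is an arbitrary point -/
noncomputable def real (o : H3) : Cell K → H3
  | vt x _ => x
  | _ => o

end Cell

/-! ## The group and its polyhedron -/

/-- the group generated by two bijections -/
def Gr (S T : Equiv.Perm H3) : Subgroup (Equiv.Perm H3) := Subgroup.closure {S, T}

/-- orbit of a point -/
def Orb (v : H3) (S T : Equiv.Perm H3) : Set H3 := {x | ∃ g ∈ Gr S T, x = g v}

/-- the base face: the orbit of the base edge under `T * S⁻¹` -/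
def f0 (v v' : H3) (S T : Equiv.Perm H3) : Set (Set H3) :=
  {e | ∃ k : ℤ, e = ((T * S⁻¹) ^ k : Equiv.Perm H3) '' {v, v'}}

/-- the polyhedron of a group -/
def Kst (v v' : H3) (S T : Equiv.Perm H3) : Geo :=
  ⟨Orb v S T, {e | ∃ g ∈ Gr S T, e = g '' {v, v'}}, {f | ∃ g ∈ Gr S T, f = (Set.image g) '' f0 v v' S T}⟩

/-! ## Lorentz maps -/

/-- linear maps which preserve the Minkowski product and the upper sheet -/
def Lor (A : V4 →ₗ[ℝ] V4) : Prop := (∀ x y, mk (A x) (A y) = mk x y) ∧ ∀ x : H3, 0 < (A x.1) 3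

/-- `A` extends `g` -/
def Ext (A : V4 →ₗ[ℝ] V4) (g : Equiv.Perm H3) : Prop := ∀ x : H3, A x.1 = (g x).1

/-- the base point -/
def o : H3 := ⟨![0, 0, 0, 1], by simp [mk], by simp⟩

/-- the point with given space coordinates -/
noncomputable def pt (x y z : ℝ) : H3 := ⟨![x, y, z, Real.sqrt (1 + x ^ 2 + y ^ 2 + z ^ 2)], by
  have h : Real.sqrt (1 + x ^ 2 + y ^ 2 + z ^ 2) * Real.sqrt (1 + x ^ 2 + y ^ 2 + z ^ 2) =
    1 + x ^ 2 + y ^ 2 + z ^ 2 := Real.mul_self_sqrt (by positivity)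
  simp only [mk, Matrix.cons_val]
  rw [h]; ring, by
  simp only [Matrix.cons_val]
  positivity⟩

/-- rotation about the third axis by the angle `t`, with the factor `d` on this axis -/
noncomputable def rot (t d : ℝ) : V4 →ₗ[ℝ] V4 where
  toFun x := ![Real.cos t * x 0 - Real.sin t * x 1, Real.sin t * x 0 + Real.cos t * x 1, d * x 2, x 3]
  map_add' x y := by ext i; fin_cases i <;> simp <;> ring
  map_smul' c x := by ext i; fin_cases i <;> simp <;> ring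

/-- the half-turn with fixed vectors `a` (timelike) and `b` (spacelike) -/
noncomputable def ht (a b : V4) : V4 →ₗ[ℝ] V4 where
  toFun x := fun i => -x i + 2 * mk a x * a i - 2 * mk b x * b i
  map_add' x y := by ext i; simp [mk]; ring
  map_smul' c x := by ext i; simp [mk]; ring

/-- reflection in the hyperplane orthogonal to the unit spacelike vector `a` -/
noncomputable def refl (a : V4) : V4 →ₗ[ℝ] V4 where
  toFun x := fun i => x i + 2 * mk a x * a i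
  map_add' x y := by ext i; simp [mk]; ring
  map_smul' c x := by ext i; simp [mk]; ring

end Pool.Agent.H57.CP
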