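import Mathlib
import Pool.Agent.H57.CP.Geo

/-!
# Geometric polyhedra in hyperbolic 3-space: targets

One `Prop` `T_XX` per module.
-/

open Set Filter Topology

namespace Pool.Agent.H57.CP

/-! ## From the literal definitions to the set form and back -/

def T_LA : Prop := ∀ (P : Type) [PartialOrder P] [BoundedOrder P] (rk : P → ℤ) (β : P → H3),
  IsPolyhedron P rk → IsFaithful rk β → IsGeo (Kof rk β)

def T_LB : Prop := ∀ (P : Type) [PartialOrder P] [BoundedOrder P] (rk : P → ℤ) (β : P → H3),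
  IsPolyhedron P rk → IsFaithful rk β → IsChiral rk β → Chi (Kof rk β)

def T_LC : Prop := ∀ (P : Type) [PartialOrder P] [BoundedOrder P] (rk : P → ℤ) (β : P → H3) (p q : ℕ∞),
  IsPolyhedron P rk → IsFaithful rk β → HasType rk p q → Ty (Kof rk β) p q

def T_LD : Prop := ∀ K : Geo, IsGeo K → IsPolyhedron (Cell K) Cell.rk ∧ IsFaithful (Cell.rk (K := K)) (Cell.real o)

def T_LE : Prop := ∀ K : Geo, IsGeo K → (Chi K → IsChiral (Cell.rk (K := K)) (Cell.real o)) ∧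
  (∀ p q, Ty K p q → HasType (Cell.rk (K := K)) p q) ∧
  ∀ L, EdgeLen K L → ∀ e v w : Cell K, Cell.rk e = 1 → Cell.rk v = 0 → Cell.rk w = 0 → v < e → w < e → v ≠ w →
    ch (Cell.real o v) (Cell.real o w) = L

/-! ## Flags -/

/-- symmetries form a group which acts on flags -/
def T_SYG : Prop := ∀ K : Geo, Sy K 1 ∧ (∀ g h, Sy K g → Sy K h → Sy K (g * h)) ∧ (∀ g, Sy K g → Sy K g⁻¹) ∧
  (∀ g h Φ, act (g * h) Φ = act g (act h Φ)) ∧ ∀ Φ, act 1 Φ = Φ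

/-- every flag has exactly one adjacent flag of each kind -/
def T_FLA : Prop := ∀ K : Geo, IsGeo K → ∀ Φ, Fl K Φ →
  (∃! Ψ, A0 K Φ Ψ) ∧ (∃! Ψ, A1 K Φ Ψ) ∧ (∃! Ψ, A2 K Φ Ψ)

/-- symmetries preserve flags and adjacency -/
def T_FLB : Prop := ∀ (K : Geo) (g : Equiv.Perm H3), Sy K g → ∀ Φ Ψ, (Fl K Φ → Fl K (act g Φ)) ∧
  (A0 K Φ Ψ → A0 K (act g Φ) (act g Ψ)) ∧ (A1 K Φ Ψ → A1 K (act g Φ) (act g Ψ)) ∧
  (A2 K Φ Ψ → A2 K (act g Φ) (act g Ψ))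

/-- flags are connected by adjacency -/
def T_FLC : Prop := ∀ K : Geo, IsGeo K → ∀ Φ Ψ, Fl K Φ → Fl K Ψ →
  Relation.ReflTransGen (fun a b => A0 K a b ∨ A1 K a b ∨ A2 K a b) Φ Ψ

/-- symmetries which agree on a flag agree on all vertices -/
def T_FLD : Prop := ∀ K : Geo, IsGeo K → ∀ g h, Sy K g → Sy K h → ∀ Φ, Fl K Φ → act g Φ = act h Φ →
  ∀ x ∈ K.V, g x = h x

/-- the two rotations of a chiral polyhedron -/
structure RotD (K : Geo) (Φ Φ0 Φ1 Φ2 Φ02 Φ12 : Fg) (S T : Equiv.Perm H3) : Prop where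
  a0 : A0 K Φ Φ0
  a1 : A1 K Φ Φ1
  a2 : A2 K Φ Φ2
  a02 : A2 K Φ0 Φ02
  a12 : A2 K Φ1 Φ12
  sS : Sy K S
  sT : Sy K T
  eS : act S Φ = Φ12
  eT : act T Φ = Φ02

def T_NCA : Prop := ∀ K : Geo, IsGeo K → Chi K → ∃ Φ Φ0 Φ1 Φ2 Φ02 Φ12 S T, RotD K Φ Φ0 Φ1 Φ2 Φ02 Φ12 S T

def T_NCB : Prop := ∀ (K : Geo) (Φ Φ0 Φ1 Φ2 Φ02 Φ12 : Fg) (S T : Equiv.Perm H3), IsGeo K →
  RotD K Φ Φ0 Φ1 Φ2 Φ02 Φ12 S T → act T Φ2 = Φ0 ∧ act S Φ2 = Φ1 ∧ A0 K Φ2 Φ02 ∧ A1 K (act S⁻¹ Φ) Φ2 ∧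
    A1 K (act (T * S⁻¹) Φ) Φ0

/-- the group generated by the rotations has at most two orbits -/
def T_NCC : Prop := ∀ (K : Geo) (Φ Φ0 Φ1 Φ2 Φ02 Φ12 : Fg) (S T : Equiv.Perm H3), IsGeo K →
  RotD K Φ Φ0 Φ1 Φ2 Φ02 Φ12 S T → ∀ Ψ, Fl K Ψ → ∃ g ∈ Gr S T, Ψ = act g Φ ∨ Ψ = act g Φ2

def T_NCD : Prop := ∀ (K : Geo) (Φ Φ0 Φ1 Φ2 Φ02 Φ12 : Fg) (S T : Equiv.Perm H3), IsGeo K →
  RotD K Φ Φ0 Φ1 Φ2 Φ02 Φ12 S T → ∃ v v' : H3, v ≠ v' ∧ Φ = (v, {v, v'}, f0 v v' S T) ∧ Φ0.1 = v' ∧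
    Φ2 = (v, {v, v'}, (Set.image T) '' f0 v v' S T) ∧ S v = v ∧ T v = v' ∧ T v' = v

/-- standard generators -/
structure Std (K : Geo) (v v' : H3) (S T : Equiv.Perm H3) : Prop where
  geo : IsGeo K
  eqK : K = Kst v v' S T
  sS : Sy K S
  sT : Sy K T
  Sv : S v = v
  Tv : T v = v'
  Tv' : T v' = v
  ne : v ≠ v'
  fl : Fl K (v, {v, v'}, f0 v v' S T)
  fT : (Set.image T) '' f0 v v' S T ≠ f0 v v' S T
  TT : ∀ x ∈ K.V, T (T x) = x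
  Sne : S v' ≠ v'
  Sm : ∀ m : ℕ, (S ^ m) v' = v' → ∀ x ∈ K.V, (S ^ m) x = x
  Pm : ∀ m : ℕ, ((T * S⁻¹) ^ m) v = v → ∀ x ∈ K.V, ((T * S⁻¹) ^ m) x = x
  noR : ¬ ∃ R, Sy K R ∧ R v = v ∧ R v' = v' ∧ (Set.image R) '' f0 v v' S T = (Set.image T) '' f0 v v' S T

def T_NCE : Prop := ∀ K : Geo, IsGeo K → Chi K → ∃ v v' S T, Std K v v' S T

/-- at least three edges at a vertex -/
def T_NCF : Prop := ∀ (K : Geo) (v v' : H3) (S T : Equiv.Perm H3), Std K v v' S T → S (S v') ≠ v'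

/-- the type in terms of the rotations -/
def T_NCG : Prop := ∀ (K : Geo) (v v' : H3) (S T : Equiv.Perm H3) (p q : ℕ∞), Std K v v' S T → Ty K p q →
  {x | ∃ k : ℤ, x = ((T * S⁻¹) ^ k : Equiv.Perm H3) v}.encard = p ∧
  {x | ∃ k : ℤ, x = (S ^ k : Equiv.Perm H3) v'}.encard = q

/-- isometries which invert `S` and commute with `T` would be symmetries -/
def T_NRL : Prop := ∀ (K : Geo) (v v' : H3) (S T : Equiv.Perm H3), Std K v v' S T →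
  ¬ ∃ R, IsIso R ∧ R v = v ∧ R v' = v' ∧ ∀ x ∈ K.V, R (S x) = S⁻¹ (R x) ∧ R (T x) = T (R x)

/-- what is needed about the generators -/
structure Core (v v' : H3) (S T : Equiv.Perm H3) : Prop where
  iS : IsIso S
  iT : IsIso T
  Sv : S v = v
  Tv : T v = v'
  Tv' : T v' = v
  ne : v ≠ v'
  TT : ∀ x ∈ Orb v S T, T (T x) = x
  S2 : S (S v') ≠ v'
  Sm : ∀ m : ℕ, (S ^ m) v' = v' → ∀ x ∈ Orb v S T, (S ^ m) x = x
  Pm : ∀ m : ℕ, ((T * S⁻¹) ^ m) v = v → ∀ x ∈ Orb v S T, ((T * S⁻¹) ^ m) x = x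
  dis : ∃ ε : ℝ, 0 < ε ∧ ∀ x ∈ Orb v S T, x ≠ v → 1 + ε ≤ ch v x
  noR : ¬ ∃ R, IsIso R ∧ R v = v ∧ R v' = v' ∧ ∀ x ∈ Orb v S T, R (S x) = S⁻¹ (R x) ∧ R (T x) = T (R x)

/-- conjugation -/
def T_TRP : Prop := ∀ (v v' : H3) (S T C : Equiv.Perm H3), IsIso C → Core v v' S T →
  Core (C v) (C v') (C * S * C⁻¹) (C * T * C⁻¹)

/-- `S` has finite order -/
def T_QFN : Prop := ∀ (v v' : H3) (S T : Equiv.Perm H3), Core v v' S T → ∃ m : ℕ, 0 < m ∧ (S ^ m) v' = v'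

/-- size of the orbit of a cyclic group -/
def T_ORD : Prop := ∀ (g : Equiv.Perm H3) (x : H3), (∀ n : ℕ, 0 < n →
    (({y | ∃ k : ℤ, y = (g ^ k : Equiv.Perm H3) x}.encard = n) ↔
      ((g ^ n) x = x ∧ ∀ m : ℕ, 0 < m → m < n → (g ^ m) x ≠ x))) ∧
  (({y | ∃ k : ℤ, y = (g ^ k : Equiv.Perm H3) x}.encard = ⊤) ↔ ∀ m : ℕ, 0 < m → (g ^ m) x ≠ x) ∧
  {y | ∃ k : ℤ, y = (g ^ k : Equiv.Perm H3) x}.encard ≠ 0

/-! ## Isometries are Lorentz maps -/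

def T_EXT : Prop := ∀ g : Equiv.Perm H3, IsIso g → ∃ A, Lor A ∧ Ext A g

def T_MKI : Prop := ∀ A, Lor A → ∃ g : Equiv.Perm H3, IsIso g ∧ Ext A g

/-- the hyperboloid spans `ℝ⁴` -/
def T_SPN : Prop := ∀ A B : V4 →ₗ[ℝ] V4, (∀ x : H3, A x.1 = B x.1) → A = B

/-- basic inequalities for the distance -/
def T_CTR : Prop := ∀ x y z : H3, 1 ≤ ch x y ∧ (ch x y = 1 → x = y) ∧ ch x z ≤ 2 * ch x y * ch y z

/-- the special maps are Lorentz maps -/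
def T_LOR : Prop := (∀ t d : ℝ, d = 1 ∨ d = -1 → Lor (rot t d)) ∧
  (∀ a b : V4, mk a a = 1 → mk b b = -1 → mk a b = 0 → Lor (ht a b) ∧ ht a b * ht a b = 1) ∧
  (∀ a : V4, mk a a = -1 → Lor (refl a) ∧ refl a * refl a = 1)

/-- transitivity -/
def T_TRV : Prop := ∀ v : H3, ∃ C : Equiv.Perm H3, IsIso C ∧ C v = o

/-- isometries with a fixed point have an axis -/
def T_OAX : Prop := ∀ g : Equiv.Perm H3, IsIso g → g o = o → ∃ (C : Equiv.Perm H3) (t d : ℝ), IsIso C ∧ C o = o ∧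
  (d = 1 ∨ d = -1) ∧ Ext (rot t d) (C * g * C⁻¹)

/-- normal form -/
def T_NF : Prop := ∀ (v v' : H3) (S : Equiv.Perm H3), v ≠ v' → IsIso S → S v = v →
  ∃ (C : Equiv.Perm H3) (t d x z : ℝ), IsIso C ∧ (d = 1 ∨ d = -1) ∧ C v = o ∧ C v' = pt x 0 z ∧ 0 ≤ x ∧
    Ext (rot t d) (C * S * C⁻¹)

/-! ## Necessary conditions -/

structure NFm (S T : Equiv.Perm H3) (t d x z : ℝ) : Prop where
  core : Core o (pt x 0 z) S T
  eS : Ext (rot t d) S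
  d1 : d = 1 ∨ d = -1
  x0 : 0 ≤ x

def T_NGA : Prop := ∀ (S T : Equiv.Perm H3) (t d x z : ℝ), NFm S T t d x z → x ≠ 0 ∧ Real.sin t ≠ 0 ∧ z ≠ 0

/-- four points determine an isometry -/
def T_SPF : Prop := ∀ (S g : Equiv.Perm H3) (t d x z : ℝ), d = 1 ∨ d = -1 → x ≠ 0 → Real.sin t ≠ 0 → z ≠ 0 →
  Ext (rot t d) S → IsIso g → g o = o → g (pt x 0 z) = pt x 0 z → g (S (pt x 0 z)) = S (pt x 0 z) →
  g (S⁻¹ (pt x 0 z)) = S⁻¹ (pt x 0 z) → g = 1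

/-- the numerical form of chirality -/
structure Num (a b : V4) : Prop where
  aa : mk a a = 1
  bb : mk b b = -1
  ab : mk a b = 0
  b3 : b 3 = 0
  a1 : a 1 = 0
  a3 : 0 < a 3
  a0 : a 0 ≠ 0
  a2 : a 2 ≠ 0
  b1 : b 1 ≠ 0
  b2 : b 2 ≠ 0

def T_NGB : Prop := ∀ (S T : Equiv.Perm H3) (t d x z : ℝ), NFm S T t d x z → x ≠ 0 → Real.sin t ≠ 0 → z ≠ 0 →
  T * T = 1 → ∃ a b, Num a b ∧ Ext (ht a b) T

/-- finite faces: `S` is a rotatory reflection -/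
def T_NGC : Prop := ∀ (S T : Equiv.Perm H3) (t : ℝ) (a b : V4) (n : ℕ), Num a b → Real.sin t ≠ 0 →
  Ext (rot t 1) S → Ext (ht a b) T → 0 < n → (T * S⁻¹) ^ n ≠ 1

/-- determinants and traces of the special maps -/
def T_DET : Prop := (∀ t d : ℝ, LinearMap.det (rot t d) = d ∧ LinearMap.trace ℝ V4 (rot t d) = 2 * Real.cos t + d + 1) ∧
  ∀ a b : V4, mk a a = 1 → mk b b = -1 → mk a b = 0 → LinearMap.det (ht a b) = 1 ∧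
    ∀ A : V4 →ₗ[ℝ] V4, LinearMap.trace ℝ V4 (ht a b * A) =
      -LinearMap.trace ℝ V4 A + 2 * mk a (A a) - 2 * mk b (A b)

/-- the characteristic equation of orientation reversing Lorentz maps -/
def T_CHP : Prop := ∀ A : V4 →ₗ[ℝ] V4, Lor A → LinearMap.det A = -1 →
  A ^ 4 = (LinearMap.trace ℝ V4 A) • A ^ 3 - (LinearMap.trace ℝ V4 A) • A + 1

/-- parity -/
def T_PAR : Prop := ∀ (S T : Equiv.Perm H3) (t : ℝ) (a b : V4) (n : ℕ), Num a b → Ext (rot t (-1)) S →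
  Ext (ht a b) T → (S ^ n = 1 → Even n) ∧ ((T * S⁻¹) ^ n = 1 → Even n)

/-- the type `{4, 4}` does not occur -/
def T_XFF : Prop := ∀ (S T : Equiv.Perm H3) (t : ℝ) (a b : V4), Num a b → Ext (rot t (-1)) S → Ext (ht a b) T →
  S ^ 4 = 1 → S ^ 2 ≠ 1 → (T * S⁻¹) ^ 4 = 1 → (T * S⁻¹) ^ 2 = 1

/-- THE NECESSARY CONDITIONS -/
def T_NEC : Prop := ∀ (K : Geo) (p q : ℕ∞), IsGeo K → Chi K → Ty K p q → Admissible p q

/-! ## The polyhedron of a group -/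

structure Gen (v v' : H3) (S T : Equiv.Perm H3) (q : ℕ) : Prop where
  iS : IsIso S
  iT : IsIso T
  Sv : S v = v
  Tv : T v = v'
  TT : T * T = 1
  ne : v ≠ v'
  q3 : 3 ≤ q
  Sq : S ^ q = 1
  fr : ∀ k : ℕ, 0 < k → k < q → (S ^ k) v' ≠ v'
  st : ∀ g ∈ Gr S T, g v = v → ∃ k : ℕ, g = S ^ k
  di : ∃ ε : ℝ, 0 < ε ∧ ∀ g ∈ Gr S T, g v ≠ v → 1 + ε ≤ ch v (g v)

def T_EA : Prop := ∀ (v v' : H3) (S T : Equiv.Perm H3) (q : ℕ), Gen v v' S T q →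
  (∀ g ∈ Gr S T, g v = v → g v' = v' → g = 1) ∧
  (∀ g ∈ Gr S T, g '' {v, v'} = {v, v'} → g = 1 ∨ g = T) ∧
  (∀ k : ℤ, ((T * S⁻¹) ^ k : Equiv.Perm H3) v = v → (T * S⁻¹) ^ k = 1) ∧ T v' = v ∧ S v' ≠ v' ∧ S v' ≠ S⁻¹ v'

def T_EB : Prop := ∀ (v v' : H3) (S T : Equiv.Perm H3) (q : ℕ), Gen v v' S T q →
  {e | e ∈ f0 v v' S T ∧ v ∈ e} = {{v, v'}, {v, S v'}} ∧
  {e | e ∈ (Set.image T) '' f0 v v' S T ∧ v ∈ e} = {{v, v'}, {v, S⁻¹ v'}} ∧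
  f0 v v' S T ≠ (Set.image T) '' f0 v v' S T ∧
  ∀ g ∈ Gr S T, {v, v'} ∈ (Set.image g) '' f0 v v' S T →
    (Set.image g) '' f0 v v' S T = f0 v v' S T ∨ (Set.image g) '' f0 v v' S T = (Set.image T) '' f0 v v' S T

/-- all conditions of `IsGeo` except connectivity -/
def T_EC : Prop := ∀ (v v' : H3) (S T : Equiv.Perm H3) (q : ℕ), Gen v v' S T q →
  (Kst v v' S T).V.Nonempty ∧
  (∀ e ∈ (Kst v v' S T).E, ∃ x ∈ (Kst v v' S T).V, ∃ y ∈ (Kst v v' S T).V, x ≠ y ∧ e = {x, y}) ∧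
  (∀ f ∈ (Kst v v' S T).F, f ⊆ (Kst v v' S T).E ∧ f.Nonempty) ∧
  (∀ x ∈ (Kst v v' S T).V, ∃ e ∈ (Kst v v' S T).E, x ∈ e) ∧
  (∀ e ∈ (Kst v v' S T).E, {f | f ∈ (Kst v v' S T).F ∧ e ∈ f}.ncard = 2) ∧
  (∀ f ∈ (Kst v v' S T).F, ∀ e ∈ f, ∀ x ∈ e, {e' | e' ∈ f ∧ x ∈ e'}.ncard = 2) ∧
  (∀ x ∈ (Kst v v' S T).V, ∃ ε : ℝ, 0 < ε ∧ ∀ y ∈ (Kst v v' S T).V, y ≠ x → 1 + ε ≤ ch x y)

/-- connectivity -/
def T_ED : Prop := ∀ (v v' : H3) (S T : Equiv.Perm H3) (q : ℕ), Gen v v' S T q →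
  (∀ f ∈ (Kst v v' S T).F, ∀ e ∈ f, ∀ e' ∈ f,
    Relation.ReflTransGen (fun a b => b ∈ f ∧ (a ∩ b).Nonempty) e e') ∧
  (∀ x ∈ (Kst v v' S T).V, ∀ e ∈ (Kst v v' S T).E, x ∈ e → ∀ e' ∈ (Kst v v' S T).E, x ∈ e' →
    Relation.ReflTransGen (fun a b => x ∈ b ∧ ∃ f ∈ (Kst v v' S T).F, a ∈ f ∧ b ∈ f) e e') ∧
  (∀ x ∈ (Kst v v' S T).V, ∀ y ∈ (Kst v v' S T).V,
    Relation.ReflTransGen (fun a b => ({a, b} : Set H3) ∈ (Kst v v' S T).E) x y)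

/-- the type and the edge length -/
def T_EE : Prop := ∀ (v v' : H3) (S T : Equiv.Perm H3) (q : ℕ) (p : ℕ∞), Gen v v' S T q →
  {x | ∃ k : ℤ, x = ((T * S⁻¹) ^ k : Equiv.Perm H3) v}.encard = p →
  Ty (Kst v v' S T) p q ∧ EdgeLen (Kst v v' S T) (ch v v')

/-- the generators are the rotations -/
def T_EF : Prop := ∀ (v v' : H3) (S T : Equiv.Perm H3) (q : ℕ), Gen v v' S T q → IsGeo (Kst v v' S T) →
  ∃ Φ0 Φ1 Φ02 Φ12, RotD (Kst v v' S T) (v, {v, v'}, f0 v v' S T) Φ0 Φ1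
    (v, {v, v'}, (Set.image T) '' f0 v v' S T) Φ02 Φ12 S T

/-- chirality -/
def T_EG : Prop := ∀ (K : Geo) (Φ Φ0 Φ1 Φ2 Φ02 Φ12 : Fg) (S T : Equiv.Perm H3), IsGeo K →
  RotD K Φ Φ0 Φ1 Φ2 Φ02 Φ12 S T →
  (¬ ∃ R, IsIso R ∧ act R Φ = Φ2 ∧ R * S = S⁻¹ * R ∧ R * T = T * R) →
  (∀ g, IsIso g → (∀ y ∈ K.V, g y = y) → g = 1) → Chi K

/-- chirality of explicit groups -/
def T_XCH : Prop := ∀ (S T : Equiv.Perm H3) (t d : ℝ) (a b : V4), Num a b → d = 1 ∨ d = -1 → Real.sin t ≠ 0 →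
  Ext (rot t d) S → Ext (ht a b) T →
  (¬ ∃ R, IsIso R ∧ R o = o ∧ R (T o) = T o ∧ R * S = S⁻¹ * R ∧ R * T = T * R) ∧
  (∀ g, IsIso g → (∀ y ∈ Orb o S T, g y = y) → g = 1) ∧ ch o (T o) = 2 * (a 3) ^ 2 - 1

/-! ## Nested bisectors -/

/-- nested half spaces -/
def T_NST : Prop := ∀ (n n' : V4) (y x : H3), mk n n = -1 → mk n' n' = -1 → mk n n' < -1 → mk y.1 n < 0 →
  0 < mk y.1 n' → mk x.1 n' < 0 → mk x.1 n < 0

/-- local to global -/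
def T_CHN : Prop := ∀ (N : ℕ) (y : ℕ → H3), 1 ≤ N → (∀ i < N, 1 < ch (y i) (y (i + 1))) →
  (∀ i, i + 2 ≤ N → Real.sqrt (ch (y i) (y (i + 1)) - 1) + Real.sqrt (ch (y (i + 1)) (y (i + 2)) - 1) <
    Real.sqrt (ch (y i) (y (i + 2)) - 1)) → ch (y 0) (y 1) + 1 ≤ 2 * (ch (y 0) (y N)) ^ 2

/-! ## Infinite faces -/

/-- free products -/
def T_INF : Prop := ∀ (q : ℕ) (a b : V4) (S T : Equiv.Perm H3), 3 ≤ q → mk a a = 1 → mk b b = -1 → mk a b = 0 →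
  b 3 = 0 → a 1 = 0 → 0 < a 3 → 0 < a 0 →
  Real.sqrt ((a 0) ^ 2 + (a 2) ^ 2) < a 3 * a 0 * Real.sin (Real.pi / q) →
  Ext (rot (2 * Real.pi / q) 1) S → Ext (ht a b) T →
  Gen o (T o) S T q ∧ ∀ m : ℕ, 0 < m → ((T * S⁻¹) ^ m) o ≠ o

/-- all types with infinite faces -/
def T_PIN : Prop := ∀ q : ℕ, 3 ≤ q → ∃ L₀ : ℝ, 1 < L₀ ∧ ∀ L, L₀ < L → ∃ K, IsGeo K ∧ Chi K ∧ Ty K ⊤ q ∧ EdgeLen K L

/-! ## The planar Coxeter groups -/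

/-- the Coxeter matrix of the group `[2a, 2b]` -/
def cm (a b : ℕ) : CoxeterMatrix (Fin 3) where
  M := !![1, 2 * a, 2; 2 * a, 1, 2 * b; 2, 2 * b, 1]
  isSymm := by ext i j; fin_cases i <;> fin_cases j <;> rfl
  diagonal := by intro i; fin_cases i <;> rfl
  off_diagonal := by
    intro i j h
    fin_cases i <;> fin_cases j <;> simp at h ⊢ <;> omega

/-- the generators -/
abbrev sm (a b : ℕ) (i : Fin 3) : (cm a b).Group := (cm a b).toCoxeterSystem.simple i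

/-- the rotation subgroup -/
def Ev (a b : ℕ) : Subgroup (cm a b).Group := Subgroup.closure {sm a b 1 * sm a b 2, sm a b 0 * sm a b 2}

def Hyp (a b : ℕ) : Prop := 2 ≤ a ∧ 2 ≤ b ∧ ¬ (a = 2 ∧ b = 2)

noncomputable def c0 (a b : ℕ) : ℝ := Real.cos (Real.pi / (2 * a)) / Real.sin (Real.pi / (2 * b))

/-- the simple roots -/
noncomputable def al (a b : ℕ) : Fin 3 → V4 :=
  ![![-c0 a b, 0, 0, -Real.sqrt (c0 a b ^ 2 - 1)],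
    ![Real.sin (Real.pi / (2 * b)), -Real.cos (Real.pi / (2 * b)), 0, 0], ![0, 1, 0, 0]]

/-- the geometric representation -/
def Sig (a b : ℕ) (σ : (cm a b).Group →* Module.End ℝ V4) : Prop := ∀ i, σ (sm a b i) = refl (al a b i)

def T_ROO : Prop := ∀ a b, Hyp a b → 1 < c0 a b ∧ (∀ i, mk (al a b i) (al a b i) = -1) ∧
  ∀ i j, i ≠ j → mk (al a b i) (al a b j) = Real.cos (Real.pi / (cm a b i j : ℕ))

/-- products of two reflections -/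
def T_BRD : Prop := ∀ (α β : V4) (m : ℕ), 2 ≤ m → mk α α = -1 → mk β β = -1 → mk α β = Real.cos (Real.pi / m) →
  (refl α * refl β) ^ m = 1

/-- alternating products of `A` and `B`, the last factor is `B` -/
def alt {M : Type} [Monoid M] (A B : M) : ℕ → M
  | 0 => 1
  | k + 1 => (if Even k then B else A) * alt A B k

def T_DIH : Prop := ∀ (α β : V4) (m : ℕ), 2 ≤ m → mk α α = -1 → mk β β = -1 → mk α β = Real.cos (Real.pi / m) →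
  ∀ k : ℕ, (alt (M := Module.End ℝ V4) (refl α) (refl β) k) α =
    (Real.sin ((if Even k then k + 1 else k : ℕ) * Real.pi / m) / Real.sin (Real.pi / m)) • α +
    (Real.sin ((if Even k then k else k + 1 : ℕ) * Real.pi / m) / Real.sin (Real.pi / m)) • β

def T_REL : Prop := ∀ a b, Hyp a b → ∃ σ, Sig a b σ

/-- elementary properties of the representation -/
def T_SGL : Prop := ∀ a b σ, Hyp a b → Sig a b σ → ∀ w, Lor (σ w) ∧ ∀ x : V4, (σ w x) 2 = x 2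

/-- the theorem of Tits -/
def T_TIT : Prop := ∀ a b σ, Hyp a b → Sig a b σ → ∀ (w : (cm a b).Group) (i : Fin 3),
  ¬ (cm a b).toCoxeterSystem.IsRightDescent w i →
  ∃ c : Fin 3 → ℝ, (∀ j, 0 ≤ c j) ∧ σ w (al a b i) = ∑ j, c j • al a b j

def T_STB : Prop := ∀ a b σ, Hyp a b → Sig a b σ → ∀ w ∈ Ev a b, σ w o.1 = o.1 →
  ∃ k : ℕ, w = (sm a b 1 * sm a b 2) ^ k

def T_DSC : Prop := ∀ a b σ, Hyp a b → Sig a b σ → ∃ ε : ℝ, 0 < ε ∧ ∀ w : (cm a b).Group,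
  (∀ i j, |σ w (al a b i) j - al a b i j| < ε) → w = 1

def T_FNT : Prop := ∀ a b σ, Hyp a b → Sig a b σ → ∀ M : ℝ, {w | mk o.1 (σ w o.1) ≤ M}.Finite

/-- the orbit of the base point is dense at a large scale -/
def T_DNS : Prop := ∀ a b σ, Hyp a b → Sig a b σ → ∃ κ : ℝ, 1 ≤ κ ∧ ∀ x : H3, x.1 2 = 0 →
  ∃ w ∈ Ev a b, mk x.1 (σ w o.1) ≤ κ

/-- the cosine of the distance of the base point and its image -/
noncomputable def dd {a b : ℕ} (σ : (cm a b).Group →* Module.End ℝ V4) (w : (cm a b).Group) : ℝ := mk o.1 (σ w o.1)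

/-- straight chains in the planar group -/
def T_PCH : Prop := ∀ a b σ, Hyp a b → Sig a b σ → ∃ M : ℝ, 1 ≤ M ∧ ∀ w ∈ Ev a b, dd σ w ≤ M ∨
  ∃ (N : ℕ) (g : ℕ → (cm a b).Group), 2 ≤ N ∧ g 0 = 1 ∧ g N = w ∧ (∀ i, g i ∈ Ev a b) ∧
    (∀ i < N, 1 < dd σ ((g i)⁻¹ * g (i + 1)) ∧ dd σ ((g i)⁻¹ * g (i + 1)) ≤ M) ∧
    ∀ i, i + 2 ≤ N → Real.sqrt (dd σ ((g i)⁻¹ * g (i + 1)) - 1) +
      Real.sqrt (dd σ ((g (i + 1))⁻¹ * g (i + 2)) - 1) < Real.sqrt (dd σ ((g i)⁻¹ * g (i + 2)) - 1)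

/-- powers of the two rotations are different -/
def T_SZO : Prop := ∀ a b σ, Hyp a b → Sig a b σ → ∀ m k : ℕ, 0 < m → m < 2 * a →
  (sm a b 0 * sm a b 1) ^ m ≠ (sm a b 1 * sm a b 2) ^ k

/-! ## The deformation -/

noncomputable def Ssq (a b : ℕ) (u w : ℝ) : ℝ :=
  (Real.cos (Real.pi / a) + Real.cos (Real.pi / b) -
    (1 + Real.cos (Real.pi / b)) * (Real.sin u ^ 2 * Real.cos w ^ 2 + Real.sin w ^ 2)) /
  ((1 - Real.cos (Real.pi / b)) * Real.cos u ^ 2 + 2 * Real.sin u ^ 2)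

noncomputable def aV (a b : ℕ) (u w : ℝ) : V4 :=
  ![Real.sqrt (Ssq a b u w) * Real.cos u, 0, Real.sqrt (Ssq a b u w) * Real.sin u, Real.sqrt (1 + Ssq a b u w)]

noncomputable def bV (u w : ℝ) : V4 := ![-Real.sin u * Real.cos w, Real.sin w, Real.cos u * Real.cos w, 0]

def T_SSQ : Prop := ∀ a b, Hyp a b → Continuous (fun t : ℝ × ℝ => Ssq a b t.1 t.2) ∧ 0 < Ssq a b 0 0 ∧
  c0 a b ^ 2 = 1 + Ssq a b 0 0 ∧
  (∀ u w, 0 < Ssq a b u w → mk (aV a b u w) (aV a b u w) = 1 ∧ mk (bV u w) (bV u w) = -1 ∧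
    mk (aV a b u w) (bV u w) = 0) ∧
  ∀ u w w', |u| < Real.pi / 2 → 0 ≤ w → w < w' → w' < Real.pi / 2 → Ssq a b u w' < Ssq a b u w

/-- the relation for the faces -/
def T_TRR : Prop := ∀ a b u w, Hyp a b → 0 < Ssq a b u w →
  (ht (aV a b u w) (bV u w) * rot (-(Real.pi / b)) (-1)) ^ (2 * a) = 1

/-- the representation with blocks `S`, `T` -/
structure Blk (a b : ℕ) (S S' T : Module.End ℝ V4) (R : (cm a b).Group →* Module.End ℝ (V4 × V4)) : Prop where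
  r2 : ∀ x y, R (sm a b 2) (x, y) = (y, x)
  r1 : ∀ x y, R (sm a b 1) (x, y) = (S y, S' x)
  r0 : ∀ x y, R (sm a b 0) (x, y) = (T y, T x)

def T_LFT : Prop := ∀ (a b : ℕ) (S S' T : Module.End ℝ V4), S * S' = 1 → S' * S = 1 → S ^ (2 * b) = 1 → T * T = 1 →
  (T * S') ^ (2 * a) = 1 → ∃ R, Blk a b S S' T R

/-- the deformed representation -/
def Def (a b : ℕ) (u w : ℝ) (R : (cm a b).Group →* Module.End ℝ (V4 × V4)) : Prop :=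
  Blk a b (rot (Real.pi / b) (-1)) (rot (-(Real.pi / b)) (-1)) (ht (aV a b u w) (bV u w)) R

/-- existence of the deformed representations near 0 and continuity -/
def T_CNT : Prop := ∀ a b, Hyp a b → (∀ u w, 0 < Ssq a b u w → ∃ R, Def a b u w R) ∧
  ∀ (R : ℝ → ℝ → ((cm a b).Group →* Module.End ℝ (V4 × V4))), (∀ u w, 0 < Ssq a b u w → Def a b u w (R u w)) →
    ∀ (γ : (cm a b).Group) (x y : V4), ContinuousAt (fun t : ℝ × ℝ => R t.1 t.2 γ (x, y)) (0, 0)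

/-- at 0 the deformed representation is the planar one -/
def T_AGR : Prop := ∀ a b σ R, Hyp a b → Sig a b σ → Def a b 0 0 R → ∀ w ∈ Ev a b, ∀ x : V4, x 2 = 0 →
  R w (x, 0) = (σ w x, 0)

/-- the group of perms and the block representation -/
def T_LNK : Prop := ∀ (a b : ℕ) (S T : Equiv.Perm H3) (S₁ S₁' T₁ : Module.End ℝ V4)
  (R : (cm a b).Group →* Module.End ℝ (V4 × V4)), Blk a b S₁ S₁' T₁ R → S₁ * S₁' = 1 → S₁' * S₁ = 1 →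
  T₁ * T₁ = 1 → Ext S₁ S → Ext T₁ T →
  (∀ w ∈ Ev a b, ∃ g ∈ Gr S T, ∀ x : H3, R w (x.1, 0) = ((g x).1, 0)) ∧
  (∀ g ∈ Gr S T, ∃ w ∈ Ev a b, ∀ x : H3, R w (x.1, 0) = ((g x).1, 0)) ∧
  ∀ (k : ℕ) (x : H3), R ((sm a b 1 * sm a b 2) ^ k) (x.1, 0) = (((S ^ k) x).1, 0) ∧
    R ((sm a b 0 * sm a b 1) ^ k) (x.1, 0) = ((((T * S⁻¹) ^ k) x).1, 0)

/-- stability: small deformations are discrete -/
def T_PRT : Prop := ∀ a b, Hyp a b → ∃ δ₀ : ℝ, 0 < δ₀ ∧ ∀ u w, |u| < δ₀ → |w| < δ₀ → 0 < Ssq a b u w ∧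
  ∀ R, Def a b u w R → ∃ c : ℝ, 0 < c ∧ ∀ γ ∈ Ev a b, (∀ k : ℕ, γ ≠ (sm a b 1 * sm a b 2) ^ k) →
    1 + c ≤ mk o.1 (R γ (o.1, 0)).1

/-- the deformed groups -/
def T_GFN : Prop := ∀ a b, Hyp a b → ∃ δ₀ : ℝ, 0 < δ₀ ∧ ∀ u w, |u| < δ₀ → |w| < δ₀ → 0 < Ssq a b u w ∧
  ∀ S T : Equiv.Perm H3, Ext (rot (Real.pi / b) (-1)) S → Ext (ht (aV a b u w) (bV u w)) T →
    Gen o (T o) S T (2 * b) ∧ (T * S⁻¹) ^ (2 * a) = 1 ∧ ∀ m : ℕ, 0 < m → m < 2 * a → ((T * S⁻¹) ^ m) o ≠ o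

/-- all types with finite faces -/
def T_FIN : Prop := ∀ a b : ℕ, Hyp a b → ∃ A B : ℝ, 1 < A ∧ A < B ∧ ∀ L ∈ Set.Ioo A B,
  ∃ K, IsGeo K ∧ Chi K ∧ Ty K (2 * a : ℕ) (2 * b : ℕ) ∧ EdgeLen K L

/-- THE THEOREM -/
def T_MAIN : Prop := Main

end Pool.Agent.H57.CP
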