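import Pool.Agent.H57.CP.AllImports

/-!
# Geometric polyhedra in hyperbolic 3-space: assembly of all modules
-/

namespace Pool.Agent.H57.CP.Final

theorem tLOR : T_LOR := Pool.Agent.H95.CP.lor
theorem tMKI : T_MKI := Pool.Agent.H46.CP.mki
theorem tEXT : T_EXT := Pool.Agent.H46.CP.ext'
theorem tSPN : T_SPN := Pool.Agent.H46.CP.spn
theorem tCTR : T_CTR := Pool.Agent.H29.CPX.ctr
theorem tCHN : T_CHN := Pool.Agent.H29.CPX.chn Pool.Agent.H29.CPX.nst tCTR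
theorem tORD : T_ORD := Pool.Agent.H40.CP.ord
theorem tDET : T_DET := Pool.Agent.H40.CP.det
theorem tSSQ : T_SSQ := Pool.Agent.H40.CP.ssq
theorem tROO : T_ROO := Pool.Agent.H47.CP.roo
theorem tDIH : T_DIH := Pool.Agent.H47.CP.dih
theorem tCHP : T_CHP := Pool.Agent.H95.CP.chp
theorem tSPF : T_SPF := Pool.Agent.H46.CP.spf tEXT tSPN
theorem tSYG : T_SYG := Pool.Agent.H7.CP.syg
theorem tFLA : T_FLA := Pool.Agent.H92.CP.FLA.fla
theorem tFLB : T_FLB := Pool.Agent.H92.CP.FLB.flb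
theorem tFLC : T_FLC := Pool.Agent.H92.CP.FLC.flc
theorem tFLD : T_FLD := Pool.Agent.H92.CP.FLD.fld tFLA tFLB tFLC
theorem tNCA : T_NCA := Pool.Agent.H7.CP.nca tFLA
theorem tNCB : T_NCB := Pool.Agent.H7.CP.ncb tFLA tFLB
theorem tNCC : T_NCC := Pool.Agent.H7.CP.ncc tFLA tFLB tFLC
theorem tNCD : T_NCD := Pool.Agent.H7.CP.ncd tFLA tFLB
theorem tNCE : T_NCE := Pool.Agent.H5.CP.nce tFLA tFLB tFLD tSYG tNCA tNCB tNCC tNCD
theorem tNF : T_NF := Pool.Agent.H17.CP2.nf tLOR tMKI (Pool.Agent.H17.CP2.trv tLOR tMKI)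
  (Oax.oax tLOR tMKI tEXT tSPN)

theorem tNEC : T_NEC := nec tNCE (Pool.Agent.H83.CP.NCF.ncf tSYG) (Pool.Agent.H16.CPX.ncg tSYG)
  Pool.Agent.H5.CP.nrl Pool.Agent.H16.CPX.trp (Pool.Agent.H29.CPX.qfn tCTR) tORD tNF
  (Pool.Agent.H17.CP2.nga tLOR tMKI tEXT tSPN) tSPF (Ngb.ngb tLOR tMKI tEXT tSPN)
  (Pool.Agent.H17.CP2.ngc tLOR tSPN) (Pool.Agent.H40.CP.par tDET tSPN)
  (Pool.Agent.H95.CP.xff tDET tCHP tLOR tSPN)

theorem tEA : T_EA := Pool.Agent.H36.CP.ea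
theorem tEB : T_EB := Pool.Agent.H36.CP.eb tEA
theorem tEC : T_EC := Pool.Agent.H36.CP.ec tEA tEB
theorem tED : T_ED := Pool.Agent.H36.CP.ed' tEA tEB
theorem tEE : T_EE := Pool.Agent.H36.CP.ee tEA tEB
theorem tEF : T_EF := Pool.Agent.H18.CP.ef tEA tEB tEC
theorem tEG : T_EG := eg tFLA tFLB tFLC tFLD tSYG tNCB tNCC
theorem tXCH : T_XCH := xch tEXT tSPN tSPF tLOR
theorem tINF : T_INF := M86.inf tCHN tCTR tLOR
theorem tPIN : T_PIN := pin tEC tED tEE tEF tEG tXCH tINF tORD tLOR tMKI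

theorem tREL : T_REL := Pool.Agent.H46.CP.rel tROO M86.brd tLOR
theorem tSGL : T_SGL := Pool.Agent.H46.CP.sgl tLOR tROO
theorem tTIT : T_TIT := Pool.Agent.H83.CP.tit tDIH tROO
theorem tDSC : T_DSC := Pool.Agent.H18.CP.dsc tTIT tROO
theorem tSTB : T_STB := Pool.Agent.H18.CP.stb tTIT tROO tSGL
theorem tFNT : T_FNT := fnt tDSC tSGL tROO
theorem tDNS : T_DNS := Dns.dns tCTR tSGL tROO
theorem tPCH : T_PCH := Pch.pch tCTR tSGL tDNS tROO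
theorem tSZO : T_SZO := szo tROO tDIH tSGL
theorem tTRR : T_TRR := Pool.Agent.H3.CP.trr tCHP tDET tLOR tSSQ
theorem tCNT : T_CNT := Pool.Agent.H3.CP.cnt tSSQ tTRR Pool.Agent.H3.CP.lft tLOR
theorem tAGR : T_AGR := Pool.Agent.H3.CP.agr tROO tSSQ
theorem tLNK : T_LNK := lnk tSPN
theorem tPRT : T_PRT := prt tPCH tFNT tSTB tSGL tCNT tAGR tCHN tCTR tLNK tSSQ tREL tMKI tLOR
theorem tGFN : T_GFN := M86.gfn tPRT tLNK tCNT tSSQ tSZO tLOR tTRR tREL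
theorem tFIN : T_FIN := fin' tEC tED tEE tEF tEG tXCH tGFN tSSQ tORD tLOR tMKI

theorem main : Main := main_asm Pool.Agent.H83.CP.la Pool.Agent.H83.CP.LB.lb Pool.Agent.H16.CPX.lc
  Pool.Agent.H83.CP.LD.ld Pool.Agent.H5.CP.le tNEC tPIN tFIN

end Pool.Agent.H57.CP.Final
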