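import Mathlib
import Pool.Agent.H57.CP.Targets

/-!
# The necessary conditions (module NEC)
-/

namespace Pool.Agent.H57.CP

theorem isIso_one : IsIso 1 := fun _ _ => rfl

theorem isIso_mul {g h : Equiv.Perm H3} (hg : IsIso g) (hh : IsIso h) : IsIso (g * h) := fun x y => by
  rw [Equiv.Perm.mul_apply, Equiv.Perm.mul_apply, hg, hh]

theorem isIso_inv {g : Equiv.Perm H3} (hg : IsIso g) : IsIso g⁻¹ := fun x y => by
  have := hg (g⁻¹ x) (g⁻¹ y)
  have e : ∀ w, g (g⁻¹ w) = w := fun w => Equiv.apply_symm_apply g w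
  rw [e, e] at this
  exact this.symm

theorem isIso_pow {g : Equiv.Perm H3} (hg : IsIso g) (n : ℕ) : IsIso (g ^ n) := by
  induction n with
  | zero => exact isIso_one
  | succ n ih => rw [pow_succ]; exact isIso_mul ih hg

theorem conj_pow (C S : Equiv.Perm H3) (n : ℕ) : (C * S * C⁻¹) ^ n = C * S ^ n * C⁻¹ := by
  induction n with
  | zero => simp
  | succ n ih => rw [pow_succ, ih, pow_succ]; group

theorem conj_pow_apply (C S : Equiv.Perm H3) (n : ℕ) (x : H3) : ((C * S * C⁻¹) ^ n) (C x) = C ((S ^ n) x) := by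
  rw [conj_pow]
  simp [Equiv.Perm.mul_apply]

theorem nec (hNCE : T_NCE) (hNCF : T_NCF) (hNCG : T_NCG) (hNRL : T_NRL) (hTRP : T_TRP) (hQFN : T_QFN)
    (hORD : T_ORD) (hNF : T_NF) (hNGA : T_NGA) (hSPF : T_SPF) (hNGB : T_NGB)
    (hNGC : T_NGC) (hPAR : T_PAR) (hXFF : T_XFF) : T_NEC := by
  intro K p q hG hC hT
  obtain ⟨v, v', S, T, st⟩ := hNCE K hG hC
  have hKV : K.V = Orb v S T := by rw [st.eqK]; rfl
  have hvK : v ∈ K.V := by
    rw [hKV]; exact ⟨1, Subgroup.one_mem _, rfl⟩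
  have core : Core v v' S T := by
    refine ⟨st.sS.iso, st.sT.iso, st.Sv, st.Tv, st.Tv', st.ne, ?_, hNCF K v v' S T st, ?_, ?_, ?_, ?_⟩
    · rw [← hKV]; exact st.TT
    · rw [← hKV]; exact st.Sm
    · rw [← hKV]; exact st.Pm
    · rw [← hKV]; exact hG.dis v hvK
    · rw [← hKV]; exact hNRL K v v' S T st
  obtain ⟨C, t, d, x, z, hCi, hd, hCv, hCv', hx0, hExt⟩ := hNF v v' S core.ne core.iS core.Sv
  have core1 : Core o (pt x 0 z) (C * S * C⁻¹) (C * T * C⁻¹) := by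
    have := hTRP v v' S T C hCi core
    rwa [hCv, hCv'] at this
  set S1 := C * S * C⁻¹ with hS1
  set T1 := C * T * C⁻¹ with hT1
  have nf : NFm S1 T1 t d x z := ⟨core1, hExt, hd, hx0⟩
  obtain ⟨hx, ht, hz⟩ := hNGA S1 T1 t d x z nf
  have hS1m : S1 ∈ Gr S1 T1 := Subgroup.subset_closure (Or.inl rfl)
  have hT1m : T1 ∈ Gr S1 T1 := Subgroup.subset_closure (Or.inr rfl)
  have rigid : ∀ g : Equiv.Perm H3, IsIso g → (∀ y ∈ Orb o S1 T1, g y = y) → g = 1 := by
    intro g hg hfix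
    refine hSPF S1 g t d x z hd hx ht hz hExt hg (hfix _ ⟨1, Subgroup.one_mem _, rfl⟩)
      (hfix _ ⟨T1, hT1m, core1.Tv.symm⟩) (hfix _ ⟨S1 * T1, Subgroup.mul_mem _ hS1m hT1m, ?_⟩)
      (hfix _ ⟨S1⁻¹ * T1, Subgroup.mul_mem _ (Subgroup.inv_mem _ hS1m) hT1m, ?_⟩)
    · exact (congrArg S1 core1.Tv).symm
    · exact (congrArg (S1⁻¹ : Equiv.Perm H3) core1.Tv).symm
  have hTT : T1 * T1 = 1 := rigid _ (isIso_mul core1.iT core1.iT) fun y hy => by
    rw [Equiv.Perm.mul_apply]; exact core1.TT y hy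
  have hSm1 : ∀ m : ℕ, (S1 ^ m) (pt x 0 z) = pt x 0 z → S1 ^ m = 1 := fun m hm =>
    rigid _ (isIso_pow core1.iS m) (core1.Sm m hm)
  have hPm1 : ∀ m : ℕ, ((T1 * S1⁻¹) ^ m) o = o → (T1 * S1⁻¹) ^ m = 1 := fun m hm =>
    rigid _ (isIso_pow (isIso_mul core1.iT (isIso_inv core1.iS)) m) (core1.Pm m hm)
  have hP1 : T1 * S1⁻¹ = C * (T * S⁻¹) * C⁻¹ := by rw [hT1, hS1]; group
  obtain ⟨hp, hq⟩ := hNCG K v v' S T p q st hT
  -- the order of `S`
  obtain ⟨m0, hm0, hm0'⟩ := hQFN v v' S T core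
  obtain ⟨oS1, oS2, oS3⟩ := hORD S v'
  have hqt : q ≠ ⊤ := by
    intro h
    rw [h] at hq
    exact oS2.mp hq m0 hm0 hm0'
  obtain ⟨n, hn⟩ := ENat.ne_top_iff_exists.mp hqt
  have hn0 : 0 < n := by
    rcases Nat.eq_zero_or_pos n with h | h
    · exfalso; apply oS3; rw [hq, ← hn, h]; rfl
    · exact h
  obtain ⟨hSn, hSmin⟩ := (oS1 n hn0).mp (by rw [hq, hn])
  have hn3 : 3 ≤ n := by
    by_contra hlt
    have h12 : n = 1 ∨ n = 2 := by omega
    rcases h12 with rfl | rfl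
    · apply core.S2
      have h1 : S v' = v' := by simpa using hSn
      rw [h1, h1]
    · apply core.S2
      have h1 : (S ^ 2) v' = S (S v') := by rw [pow_two, Equiv.Perm.mul_apply]
      rw [← h1]; exact hSn
  have h3q : (3 : ℕ∞) ≤ q := by rw [← hn]; exact_mod_cast hn3
  have hS1n : S1 ^ n = 1 := by
    apply hSm1
    rw [← hCv', hS1, conj_pow_apply, hSn]
  refine ⟨h3q, hqt, ?_⟩
  by_cases hpt : p = ⊤
  · exact Or.inl hpt
  right
  obtain ⟨n', hn'⟩ := ENat.ne_top_iff_exists.mp hpt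
  obtain ⟨oP1, oP2, oP3⟩ := hORD (T * S⁻¹) v
  have hn0' : 0 < n' := by
    rcases Nat.eq_zero_or_pos n' with h | h
    · exfalso; apply oP3; rw [hp, ← hn', h]; rfl
    · exact h
  obtain ⟨hPn, hPmin⟩ := (oP1 n' hn0').mp (by rw [hp, hn'])
  have hP1n : (T1 * S1⁻¹) ^ n' = 1 := by
    apply hPm1
    rw [hP1, ← hCv, conj_pow_apply, hPn]
  obtain ⟨a, b, num, hExtT⟩ := hNGB S1 T1 t d x z nf hx ht hz hTT
  have hd1 : d = -1 := by
    rcases hd with h | h
    · exfalso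
      rw [h] at hExt
      exact hNGC S1 T1 t a b n' num ht hExt hExtT hn0' hP1n
    · exact h
  rw [hd1] at hExt
  obtain ⟨⟨b', hb'⟩, -⟩ := And.intro ((hPAR S1 T1 t a b n num hExt hExtT).1 hS1n) trivial
  obtain ⟨a', ha'⟩ := (hPAR S1 T1 t a b n' num hExt hExtT).2 hP1n
  -- the action of `P` on the first points
  have hSiv : S⁻¹ v = v := by rw [Equiv.Perm.inv_eq_iff_eq]; exact core.Sv.symm
  have hPv : (T * S⁻¹) v = v' := by rw [Equiv.Perm.mul_apply, hSiv, core.Tv]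
  have hn3' : 3 ≤ n' := by
    by_contra hlt
    have h12 : n' = 1 ∨ n' = 2 := by omega
    rcases h12 with rfl | rfl
    · have h1 : (T * S⁻¹) v = v := by simpa using hPn
      exact core.ne (by rw [← h1, hPv])
    · have h1 : (T * S⁻¹) v' = v := by
        have h2 : ((T * S⁻¹) ^ 2) v = (T * S⁻¹) ((T * S⁻¹) v) := by
          rw [pow_two, Equiv.Perm.mul_apply]
        rw [hPv] at h2
        rw [← h2]; exact hPn
      rw [Equiv.Perm.mul_apply] at h1
      have h3 : S⁻¹ v' = v' := T.injective (by rw [h1, core.Tv'])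
      have h4 : S v' = v' := (Equiv.Perm.inv_eq_iff_eq.mp h3).symm
      exact core.S2 (by rw [h4, h4])
  refine ⟨a', b', ?_, ?_, by omega, by omega, ?_⟩
  · rw [← hn', ha']; congr 1; ring
  · rw [← hn, hb']; congr 1; ring
  · rintro ⟨rfl, rfl⟩
    have hn4 : n = 4 := by omega
    have hn4' : n' = 4 := by omega
    subst hn4; subst hn4'
    have h1 : S1 ^ 2 ≠ 1 := by
      intro h
      apply hSmin 2 (by norm_num) (by norm_num)
      have h2 : (S1 ^ 2) (pt x 0 z) = pt x 0 z := by rw [h]; rfl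
      rw [← hCv', hS1, conj_pow_apply] at h2
      exact C.injective h2
    have h2 := hXFF S1 T1 t a b num hExt hExtT hS1n h1 hP1n
    apply hPmin 2 (by norm_num) (by norm_num)
    have h3 : ((T1 * S1⁻¹) ^ 2) o = o := by rw [h2]; rfl
    rw [hP1, ← hCv, conj_pow_apply] at h3
    exact C.injective h3

end Pool.Agent.H57.CP
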