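import Mathlib
import Pool.Agent.H57.CP.Targets
import Pool.Agent.H57.CP.NEC

/-!
# Stability (module PRT)
-/

open Set Filter Topology

namespace Pool.Agent.H57.CP

theorem isIso_Gr {S T : Equiv.Perm H3} (hS : IsIso S) (hT : IsIso T) : ∀ g ∈ Gr S T, IsIso g := by
  intro g hg
  refine Subgroup.closure_induction (p := fun g _ => IsIso g) ?_ isIso_one (fun _ _ _ _ => isIso_mul)
    (fun _ _ => isIso_inv) hg
  rintro x (rfl | rfl)
  · exact hS
  · exact hT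

/-- two homomorphisms with the same blocks agree -/
theorem blk_unique {a b : ℕ} {S S' T : Module.End ℝ V4} {R R' : (cm a b).Group →* Module.End ℝ (V4 × V4)}
    (h : Blk a b S S' T R) (h' : Blk a b S S' T R') : R = R' := by
  apply (cm a b).toCoxeterSystem.ext_simple
  intro i
  refine LinearMap.ext fun p => ?_
  obtain ⟨x, y⟩ := p
  fin_cases i
  · exact (h.r0 x y).trans (h'.r0 x y).symm
  · exact (h.r1 x y).trans (h'.r1 x y).symm
  · exact (h.r2 x y).trans (h'.r2 x y).symm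

theorem exists_lower {ι : Type*} {s : Set ι} (hs : s.Finite) (f : ι → ℝ) (hf : ∀ i ∈ s, 0 < f i) :
    ∃ c : ℝ, 0 < c ∧ ∀ i ∈ s, c ≤ f i := by
  rcases s.eq_empty_or_nonempty with rfl | hne
  · exact ⟨1, one_pos, by simp⟩
  · obtain ⟨i, hi, hmin⟩ := Set.exists_min_image s f hs hne
    exact ⟨f i, hf i hi, hmin⟩

theorem rot_mul_rot_neg (t : ℝ) : rot t (-1) * rot (-t) (-1) = 1 := by
  refine LinearMap.ext fun x => ?_
  ext i
  have h := Real.sin_sq_add_cos_sq t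
  fin_cases i
  · simp [rot]; linear_combination (x 0) * h
  · simp [rot]; linear_combination (x 1) * h
  · simp [rot]
  · simp [rot]

theorem rot_neg_mul_rot (t : ℝ) : rot (-t) (-1) * rot t (-1) = 1 := by
  have := rot_mul_rot_neg (-t)
  rwa [neg_neg] at this

theorem prt (hPCH : T_PCH) (hFNT : T_FNT) (hSTB : T_STB) (hSGL : T_SGL) (hCNT : T_CNT) (hAGR : T_AGR)
    (hCHN : T_CHN) (hCTR : T_CTR) (hLNK : T_LNK) (hSSQ : T_SSQ) (hREL : T_REL) (hMKI : T_MKI)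
    (hLOR : T_LOR) : T_PRT := by
  classical
  intro a b hab
  obtain ⟨σ, hσ⟩ := hREL a b hab
  obtain ⟨M, hM1, hM⟩ := hPCH a b σ hab hσ
  obtain ⟨hex, hcont⟩ := hCNT a b hab
  obtain ⟨hSc, hS0, -, hSn, -⟩ := hSSQ a b hab
  set R : ℝ → ℝ → ((cm a b).Group →* Module.End ℝ (V4 × V4)) := fun u w =>
    if h : 0 < Ssq a b u w then (hex u w h).choose else 1 with hRdef
  have hR : ∀ u w, 0 < Ssq a b u w → Def a b u w (R u w) := by
    intro u w h
    simp only [hRdef, dif_pos h]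
    exact (hex u w h).choose_spec
  clear_value R
  set D : (cm a b).Group → ℝ × ℝ → ℝ := fun h t => mk o.1 (R t.1 t.2 h (o.1, 0)).1 with hD
  have hmkc : Continuous (fun p : V4 × V4 => mk o.1 p.1) := by
    unfold mk
    fun_prop
  have hDc : ∀ h, ContinuousAt (D h) (0, 0) := by
    intro h
    exact ContinuousAt.comp (f := fun t : ℝ × ℝ => R t.1 t.2 h (o.1, 0)) hmkc.continuousAt
      (hcont R hR h o.1 0)
  have hD0 : ∀ h ∈ Ev a b, D h (0, 0) = dd σ h := by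
    intro h hh
    have := hAGR a b σ (R 0 0) hab hσ (hR 0 0 hS0) h hh o.1 rfl
    show mk o.1 (R 0 0 h (o.1, 0)).1 = _
    rw [this]
    rfl
  have hfin := hFNT a b σ hab hσ M
  set Lam : Set (cm a b).Group := {w | mk o.1 (σ w o.1) ≤ M} with hLam
  -- the lower bound
  obtain ⟨c₁, hc₁, hc₁'⟩ := exists_lower (s := {h | h ∈ Lam ∧ 1 < dd σ h}) (hfin.subset fun h hh => hh.1)
    (fun h => (dd σ h - 1) / 2) (fun h hh => by have := hh.2; linarith)
  have E1 : ∀ᶠ t : ℝ × ℝ in 𝓝 (0, 0), 0 < Ssq a b t.1 t.2 :=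
    (hSc.continuousAt (x := ((0 : ℝ), (0 : ℝ)))).eventually (lt_mem_nhds hS0)
  have E2 : ∀ᶠ t : ℝ × ℝ in 𝓝 (0, 0), ∀ h ∈ Lam, h ∈ Ev a b → 1 < dd σ h → (1 + dd σ h) / 2 < D h t := by
    rw [Filter.eventually_all_finite hfin]
    intro h hh
    by_cases h1 : h ∈ Ev a b ∧ 1 < dd σ h
    · have : (1 + dd σ h) / 2 < D h (0, 0) := by rw [hD0 h h1.1]; linarith [h1.2]
      filter_upwards [(hDc h).eventually (lt_mem_nhds this)] with t ht _ _
      exact ht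
    · exact Filter.Eventually.of_forall fun t h2 h3 => absurd ⟨h2, h3⟩ h1
  have hDs : ∀ h ∈ Ev a b, ContinuousAt (fun t => Real.sqrt (D h t - 1)) (0, 0) := fun h _ =>
    ((hDc h).sub continuousAt_const).sqrt
  have E3 : ∀ᶠ t : ℝ × ℝ in 𝓝 (0, 0), ∀ h ∈ Lam, ∀ h' ∈ Lam, h ∈ Ev a b → h' ∈ Ev a b →
      Real.sqrt (dd σ h - 1) + Real.sqrt (dd σ h' - 1) < Real.sqrt (dd σ (h * h') - 1) →
      Real.sqrt (D h t - 1) + Real.sqrt (D h' t - 1) < Real.sqrt (D (h * h') t - 1) := by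
    rw [Filter.eventually_all_finite hfin]
    intro h hh
    rw [Filter.eventually_all_finite hfin]
    intro h' hh'
    by_cases h1 : h ∈ Ev a b ∧ h' ∈ Ev a b ∧
      Real.sqrt (dd σ h - 1) + Real.sqrt (dd σ h' - 1) < Real.sqrt (dd σ (h * h') - 1)
    · obtain ⟨h2, h3, h4⟩ := h1
      have h5 : h * h' ∈ Ev a b := Subgroup.mul_mem _ h2 h3
      rw [← hD0 h h2, ← hD0 h' h3, ← hD0 _ h5] at h4
      have := ((hDs h h2).add (hDs h' h3)).eventually_lt (hDs _ h5) h4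
      filter_upwards [this] with t ht _ _ _
      exact ht
    · exact Filter.Eventually.of_forall fun t h2 h3 h4 => absurd ⟨h2, h3, h4⟩ h1
  obtain ⟨δ₀, hδ₀, hδ⟩ := Metric.eventually_nhds_iff.mp (E1.and (E2.and E3))
  refine ⟨δ₀, hδ₀, fun u w hu hw => ?_⟩
  have hdist : dist ((u, w) : ℝ × ℝ) (0, 0) < δ₀ := by
    rw [Prod.dist_eq, Real.dist_eq, Real.dist_eq, sub_zero, sub_zero]
    exact max_lt hu hw
  obtain ⟨hS, hE2, hE3⟩ := hδ hdist
  simp only at hS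
  refine ⟨hS, fun R' hR' => ?_⟩
  obtain rfl : R' = R u w := blk_unique hR' (hR u w hS)
  -- the isometries
  obtain ⟨S, hSi, hSe⟩ := hMKI _ (hLOR.1 (Real.pi / b) (-1) (Or.inr rfl))
  obtain ⟨m1, m2, m3⟩ := hSn u w hS
  obtain ⟨hTl, hTT⟩ := hLOR.2.1 (aV a b u w) (bV u w) m1 m2 m3
  obtain ⟨T, hTi, hTe⟩ := hMKI _ hTl
  obtain ⟨hl, -, -⟩ := hLNK a b S T _ _ _ (R u w) hR' (rot_mul_rot_neg _) (rot_neg_mul_rot _) hTT hSe hTe
  have hl' : ∀ γ : (cm a b).Group, ∃ g : Equiv.Perm H3, γ ∈ Ev a b → IsIso g ∧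
      ∀ x : H3, R u w γ (x.1, 0) = ((g x).1, 0) := by
    intro γ
    by_cases hγ : γ ∈ Ev a b
    · obtain ⟨g, hg, hg'⟩ := hl γ hγ
      exact ⟨g, fun _ => ⟨isIso_Gr hSi hTi g hg, hg'⟩⟩
    · exact ⟨1, fun h => absurd h hγ⟩
  choose k hk using hl'
  have hch : ∀ g ∈ Ev a b, ∀ g' ∈ Ev a b, ch (k g o) (k g' o) = D (g⁻¹ * g') (u, w) := by
    intro g hg g' hg'
    obtain ⟨i1, e1⟩ := hk g hg
    obtain ⟨i2, e2⟩ := hk g' hg'
    have e3 : R u w g⁻¹ ((k g' o).1, 0) = (((k g)⁻¹ (k g' o)).1, 0) := by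
      have h1 := e1 ((k g)⁻¹ (k g' o))
      have h2 : k g ((k g)⁻¹ (k g' o)) = k g' o := Equiv.apply_symm_apply (k g) _
      rw [h2] at h1
      rw [← h1, ← Module.End.mul_apply, ← map_mul, inv_mul_cancel, map_one, Module.End.one_apply]
    have e4 : R u w (g⁻¹ * g') (o.1, 0) = (((k g)⁻¹ (k g' o)).1, 0) := by
      rw [map_mul, Module.End.mul_apply, e2, e3]
    show _ = mk o.1 (R u w (g⁻¹ * g') (o.1, 0)).1
    rw [e4]
    show _ = ch o ((k g)⁻¹ (k g' o))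
    rw [← i1 o ((k g)⁻¹ (k g' o))]
    congr 1
    exact (Equiv.apply_symm_apply (k g) _).symm
  have hE0 : ∀ h ∈ Ev a b, dd σ h ≤ M → 1 < dd σ h → 1 + c₁ ≤ D h (u, w) := by
    intro h h1 h2 h3
    have h4 := hE2 h h2 h1 h3
    have h5 := hc₁' h ⟨h2, h3⟩
    linarith
  have hkone : ∀ γ ∈ Ev a b, D γ (u, w) = ch (k 1 o) (k γ o) := by
    intro γ hγ
    rw [hch 1 (Subgroup.one_mem _) γ hγ]
    simp
  refine ⟨min c₁ (Real.sqrt (1 + c₁ / 2) - 1), lt_min hc₁ ?_, ?_⟩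
  · have : Real.sqrt 1 < Real.sqrt (1 + c₁ / 2) := Real.sqrt_lt_sqrt (by norm_num) (by linarith)
    rw [Real.sqrt_one] at this
    linarith
  intro γ hγ hpow
  show _ ≤ D γ (u, w)
  have hγ1 : 1 < dd σ γ := by
    obtain ⟨g, hg, hge⟩ := hMKI _ (hSGL a b σ hab hσ γ).1
    have h1 : dd σ γ = ch o (g o) := by
      show mk o.1 (σ γ o.1) = mk o.1 (g o).1
      rw [hge o]
    rw [h1]
    rcases lt_or_eq_of_le (hCTR o (g o) o).1 with h | h
    · exact h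
    · exfalso
      have h2 := (hCTR o (g o) o).2.1 h.symm
      have h3 : σ γ o.1 = o.1 := by rw [hge o, ← h2]
      obtain ⟨k, hk⟩ := hSTB a b σ hab hσ γ hγ h3
      exact hpow k hk
  rcases hM γ hγ with hle | ⟨N, g, hN, hg0, hgN, hgE, hgs, hgc⟩
  · have := hE0 γ hγ hle hγ1
    have := min_le_left c₁ (Real.sqrt (1 + c₁ / 2) - 1)
    linarith
  · have h0 : ch (k (g 0) o) (k (g 1) o) = D ((g 0)⁻¹ * g 1) (u, w) := hch _ (hgE 0) _ (hgE 1)
    have hmem : ∀ i j, (g i)⁻¹ * g j ∈ Ev a b := fun i j =>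
      Subgroup.mul_mem _ (Subgroup.inv_mem _ (hgE i)) (hgE j)
    have key := hCHN N (fun i => k (g i) o) (by omega) (by
      intro i hi
      rw [hch _ (hgE i) _ (hgE (i + 1))]
      have := hE0 _ (hmem i (i + 1)) (hgs i hi).2 (hgs i hi).1
      linarith) (by
      intro i hi
      rw [hch _ (hgE i) _ (hgE (i + 1)), hch _ (hgE (i + 1)) _ (hgE (i + 2)), hch _ (hgE i) _ (hgE (i + 2))]
      have e : (g i)⁻¹ * g (i + 2) = ((g i)⁻¹ * g (i + 1)) * ((g (i + 1))⁻¹ * g (i + 2)) := by group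
      have h1 := hgc i hi
      rw [e] at h1 ⊢
      exact hE3 _ (hgs i (by omega)).2 _ (hgs (i + 1) (by omega)).2 (hmem _ _) (hmem _ _) h1)
    rw [h0, hg0, hgN, ← hkone γ hγ] at key
    have h1 := hE0 _ (hmem 0 1) (hgs 0 (by omega)).2 (hgs 0 (by omega)).1
    rw [hg0] at h1
    have h2 : 1 ≤ D γ (u, w) := by
      rw [hkone γ hγ]
      exact (hCTR _ _ o).1
    have h3 : Real.sqrt (1 + c₁ / 2) ≤ D γ (u, w) := by
      rw [Real.sqrt_le_left (by linarith)]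
      linarith
    have := min_le_right c₁ (Real.sqrt (1 + c₁ / 2) - 1)
    linarith

end Pool.Agent.H57.CP
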