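import Mathlib
import Pool.Agent.H57.CP.Targets

/-!
# The polyhedra of explicit groups; types with infinite faces (module PIN) and with finite faces (module FIN)
-/

open Set Filter Topology

namespace Pool.Agent.H57.CP

theorem wrap (hEC : T_EC) (hED : T_ED) (hEE : T_EE) (hEF : T_EF) (hEG : T_EG) (hXCH : T_XCH)
    (S T : Equiv.Perm H3) (t d : ℝ) (a b : V4) (q : ℕ) (p : ℕ∞) (hN : Num a b) (hd : d = 1 ∨ d = -1)
    (hst : Real.sin t ≠ 0) (hS : Ext (rot t d) S) (hT : Ext (ht a b) T) (hG : Gen o (T o) S T q)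
    (hp : {x | ∃ k : ℤ, x = ((T * S⁻¹) ^ k : Equiv.Perm H3) o}.encard = p) :
    ∃ K, IsGeo K ∧ Chi K ∧ Ty K p q ∧ EdgeLen K (2 * (a 3) ^ 2 - 1) := by
  obtain ⟨c1, c2, c3, c4, c5, c6, c7⟩ := hEC o (T o) S T q hG
  obtain ⟨d1, d2, d3⟩ := hED o (T o) S T q hG
  have hgeo : IsGeo (Kst o (T o) S T) := ⟨c1, c2, c3, c4, c5, c6, d1, d2, d3, c7⟩
  obtain ⟨Φ0, Φ1, Φ02, Φ12, hr⟩ := hEF o (T o) S T q hG hgeo
  obtain ⟨x1, x2, x3⟩ := hXCH S T t d a b hN hd hst hS hT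
  obtain ⟨e1, e2⟩ := hEE o (T o) S T q p hG hp
  rw [x3] at e2
  refine ⟨Kst o (T o) S T, hgeo, hEG _ _ _ _ _ _ _ S T hgeo hr ?_ x2, e1, e2⟩
  rintro ⟨R, r1, r2, r3, r4⟩
  apply x1
  have h1 : R o = o := congrArg Prod.fst r2
  have h2 : R '' {o, T o} = {o, T o} := congrArg (fun Φ : Fg => Φ.2.1) r2
  refine ⟨R, r1, h1, ?_, r3, r4⟩
  have h3 : R (T o) ∈ ({o, T o} : Set H3) := by
    rw [← h2]; exact ⟨T o, Or.inr rfl, rfl⟩
  rcases h3 with h3 | h3
  · exfalso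
    apply hG.ne
    apply R.injective
    rw [h1, h3]
  · exact h3

theorem pin (hEC : T_EC) (hED : T_ED) (hEE : T_EE) (hEF : T_EF) (hEG : T_EG) (hXCH : T_XCH) (hINF : T_INF)
    (hORD : T_ORD) (hLOR : T_LOR) (hMKI : T_MKI) : T_PIN := by
  intro q hq
  have hq0 : (0 : ℝ) < q := by positivity
  have hq3 : (3 : ℝ) ≤ q := by exact_mod_cast hq
  have hpi := Real.pi_pos
  have hang : Real.pi / q < Real.pi := by
    rw [div_lt_iff₀ hq0]; nlinarith
  have hs0 : 0 < Real.sin (Real.pi / q) := Real.sin_pos_of_pos_of_lt_pi (by positivity) hang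
  have hs1 : Real.sin (Real.pi / q) ≤ 1 := Real.sin_le_one _
  have hsq : Real.sin (Real.pi / q) ^ 2 ≤ 1 := by nlinarith
  have hL0 : 3 ≤ 4 / Real.sin (Real.pi / q) ^ 2 - 1 := by
    have : 4 ≤ 4 / Real.sin (Real.pi / q) ^ 2 := by
      rw [le_div_iff₀ (by positivity)]; nlinarith
    linarith
  refine ⟨4 / Real.sin (Real.pi / q) ^ 2 - 1, by linarith, fun L hL => ?_⟩
  have hL3 : 3 < L := by linarith
  set c := Real.sqrt ((L + 1) / 2) with hc
  have hc2 : c ^ 2 = (L + 1) / 2 := Real.sq_sqrt (by linarith)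
  have hc0 : 0 < c := Real.sqrt_pos.mpr (by linarith)
  set s := Real.sqrt (c ^ 2 - 1) with hs
  have hs2 : s ^ 2 = c ^ 2 - 1 := Real.sq_sqrt (by rw [hc2]; linarith)
  have hspos : 0 < s := Real.sqrt_pos.mpr (by rw [hc2]; linarith)
  have h22 : Real.sqrt 2 ^ 2 = 2 := Real.sq_sqrt (by norm_num)
  have h20 : 0 < Real.sqrt 2 := Real.sqrt_pos.mpr (by norm_num)
  set a : V4 := ![s / Real.sqrt 2, 0, s / Real.sqrt 2, c] with ha
  set b : V4 := ![-1 / 2, Real.sqrt 2 / 2, 1 / 2, 0] with hb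
  have a0 : a 0 = s / Real.sqrt 2 := rfl
  have a1 : a 1 = 0 := rfl
  have a2 : a 2 = s / Real.sqrt 2 := rfl
  have a3 : a 3 = c := rfl
  have b0 : b 0 = -1 / 2 := rfl
  have b1 : b 1 = Real.sqrt 2 / 2 := rfl
  have b2 : b 2 = 1 / 2 := rfl
  have b3 : b 3 = 0 := rfl
  have hs22 : (s / Real.sqrt 2) * (s / Real.sqrt 2) = s ^ 2 / 2 := by
    rw [div_mul_div_comm, ← pow_two, ← pow_two, h22]
  have hN : Num a b := by
    refine ⟨?_, ?_, ?_, b3, a1, ?_, ?_, ?_, ?_, ?_⟩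
    · rw [mk, a0, a1, a2, a3, hs22]; linarith [hs2]
    · rw [mk, b0, b1, b2, b3]; nlinarith
    · rw [mk, a0, a1, a2, a3, b0, b1, b2, b3]; ring
    · rw [a3]; exact hc0
    · rw [a0]; positivity
    · rw [a2]; positivity
    · rw [b1]; positivity
    · rw [b2]; norm_num
  obtain ⟨S, hSi, hSe⟩ := hMKI _ (hLOR.1 (2 * Real.pi / q) 1 (Or.inl rfl))
  obtain ⟨T, hTi, hTe⟩ := hMKI _ (hLOR.2.1 a b hN.aa hN.bb hN.ab).1
  have hcs : Real.sqrt 2 < c * Real.sin (Real.pi / q) := by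
    have h1 : 4 / Real.sin (Real.pi / q) ^ 2 < 2 * c ^ 2 := by rw [hc2]; linarith
    rw [div_lt_iff₀ (by positivity)] at h1
    nlinarith [mul_pos hc0 hs0]
  have hineq : Real.sqrt ((a 0) ^ 2 + (a 2) ^ 2) < a 3 * a 0 * Real.sin (Real.pi / q) := by
    have h1 : (a 0) ^ 2 + (a 2) ^ 2 = s ^ 2 := by rw [a0, a2, pow_two, hs22]; ring
    rw [h1, Real.sqrt_sq hspos.le, a3, a0]
    have h2 : c * (s / Real.sqrt 2) * Real.sin (Real.pi / q) = s * ((c * Real.sin (Real.pi / q)) / Real.sqrt 2) := by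
      ring
    rw [h2]
    have h3 : 1 < (c * Real.sin (Real.pi / q)) / Real.sqrt 2 := by
      rw [lt_div_iff₀ h20]; linarith
    nlinarith
  obtain ⟨hG, hP⟩ := hINF q a b S T hq hN.aa hN.bb hN.ab b3 a1 (by rw [a3]; exact hc0)
    (by rw [a0]; positivity) hineq hSe hTe
  have hen := (hORD (T * S⁻¹) o).2.1.mpr hP
  have hsin : Real.sin (2 * Real.pi / q) ≠ 0 := by
    apply ne_of_gt
    apply Real.sin_pos_of_pos_of_lt_pi (by positivity)
    rw [div_lt_iff₀ hq0]; nlinarith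
  obtain ⟨K, k1, k2, k3, k4⟩ := wrap hEC hED hEE hEF hEG hXCH S T _ 1 a b q ⊤ hN (Or.inl rfl) hsin hSe hTe hG hen
  refine ⟨K, k1, k2, k3, ?_⟩
  have : 2 * (a 3) ^ 2 - 1 = L := by rw [a3, hc2]; ring
  rwa [this] at k4

theorem fin' (hEC : T_EC) (hED : T_ED) (hEE : T_EE) (hEF : T_EF) (hEG : T_EG) (hXCH : T_XCH) (hGFN : T_GFN)
    (hSSQ : T_SSQ) (hORD : T_ORD) (hLOR : T_LOR) (hMKI : T_MKI) : T_FIN := by
  intro a b hab
  obtain ⟨δ, hδ, hg⟩ := hGFN a b hab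
  obtain ⟨hc, h0, -, hN, hmono⟩ := hSSQ a b hab
  have hpi := Real.pi_pos
  have hb2 : 2 ≤ b := hab.2.1
  have ha2 : 2 ≤ a := hab.1
  set u := min δ (Real.pi / 2) / 2 with hu
  have hmin : 0 < min δ (Real.pi / 2) := lt_min hδ (by positivity)
  have hu0 : 0 < u := by rw [hu]; positivity
  have hmd : min δ (Real.pi / 2) = 2 * u := by rw [hu]; ring
  have h1 : 2 * u ≤ δ := by rw [← hmd]; exact min_le_left _ _
  have h2 : 2 * u ≤ Real.pi / 2 := by rw [← hmd]; exact min_le_right _ _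
  have habu : |u| < δ := by rw [abs_of_pos hu0]; linarith
  have hpos : ∀ w, u ≤ w → w ≤ 3 * u / 2 → 0 < Ssq a b u w := by
    intro w hw hw'
    exact (hg u w habu (by rw [abs_of_pos (by linarith)]; linarith)).1
  set f : ℝ → ℝ := fun w => 1 + 2 * Ssq a b u w with hf
  have hfc : Continuous f := by
    have : Continuous (fun w : ℝ => Ssq a b u w) := hc.comp (f := fun w : ℝ => (u, w)) (by fun_prop)
    exact continuous_const.add (continuous_const.mul this)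
  have hup : |u| < Real.pi / 2 := by rw [abs_of_pos hu0]; linarith
  have hlt : Ssq a b u (3 * u / 2) < Ssq a b u u := hmono u u (3 * u / 2) hup hu0.le (by linarith) (by linarith)
  refine ⟨f (3 * u / 2), f u, ?_, ?_, ?_⟩
  · have := hpos (3 * u / 2) (by linarith) le_rfl
    simp only [hf]; linarith
  · simp only [hf]; linarith
  intro L hL
  have hiv := intermediate_value_Ioo' (f := f) (a := u) (b := 3 * u / 2) (by linarith) hfc.continuousOn
  obtain ⟨w, hw, hwL⟩ := hiv hL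
  have hS := hpos w hw.1.le hw.2.le
  have hw0 : 0 < w := lt_trans hu0 hw.1
  have hwp : w < Real.pi / 2 := by linarith [hw.2]
  obtain ⟨n1, n2, n3⟩ := hN u w hS
  have hs : 0 < Real.sqrt (Ssq a b u w) := Real.sqrt_pos.mpr hS
  have cu : 0 < Real.cos u := Real.cos_pos_of_mem_Ioo ⟨by linarith, by linarith⟩
  have su : 0 < Real.sin u := Real.sin_pos_of_pos_of_lt_pi hu0 (by linarith)
  have cw : 0 < Real.cos w := Real.cos_pos_of_mem_Ioo ⟨by linarith, by linarith⟩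
  have sw : 0 < Real.sin w := Real.sin_pos_of_pos_of_lt_pi hw0 (by linarith)
  have a3 : (aV a b u w) 3 = Real.sqrt (1 + Ssq a b u w) := rfl
  have hNum : Num (aV a b u w) (bV u w) := by
    refine ⟨n1, n2, n3, rfl, rfl, ?_, ?_, ?_, ?_, ?_⟩
    · rw [a3]; positivity
    · show Real.sqrt (Ssq a b u w) * Real.cos u ≠ 0
      positivity
    · show Real.sqrt (Ssq a b u w) * Real.sin u ≠ 0
      positivity
    · show Real.sin w ≠ 0
      positivity
    · show Real.cos u * Real.cos w ≠ 0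
      positivity
  obtain ⟨S, hSi, hSe⟩ := hMKI _ (hLOR.1 (Real.pi / b) (-1) (Or.inr rfl))
  obtain ⟨T, hTi, hTe⟩ := hMKI _ (hLOR.2.1 _ _ n1 n2 n3).1
  obtain ⟨hG, hP1, hP2⟩ := (hg u w habu (by rw [abs_of_pos hw0]; linarith [hw.2])).2 S T hSe hTe
  have hb0 : (0 : ℝ) < b := by positivity
  have hb2' : (2 : ℝ) ≤ b := by exact_mod_cast hb2
  have hsin : Real.sin (Real.pi / b) ≠ 0 := by
    apply ne_of_gt
    apply Real.sin_pos_of_pos_of_lt_pi (by positivity)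
    rw [div_lt_iff₀ hb0]; nlinarith
  have hen : {x | ∃ k : ℤ, x = ((T * S⁻¹) ^ k : Equiv.Perm H3) o}.encard = (2 * a : ℕ) := by
    refine ((hORD (T * S⁻¹) o).1 (2 * a) (by omega)).mpr ⟨?_, hP2⟩
    rw [hP1]; rfl
  obtain ⟨K, k1, k2, k3, k4⟩ := wrap hEC hED hEE hEF hEG hXCH S T _ (-1) _ _ (2 * b) (2 * a : ℕ) hNum (Or.inr rfl)
    hsin hSe hTe hG hen
  refine ⟨K, k1, k2, k3, ?_⟩
  have : 2 * ((aV a b u w) 3) ^ 2 - 1 = L := by
    rw [a3, Real.sq_sqrt (by linarith), ← hwL]; simp only [hf]; ring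
  rwa [this] at k4

end Pool.Agent.H57.CP
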