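import Pool.Agent.H57.CP.MainAsm
import Pool.Agent.H57.CP.NEC
import Pool.Agent.H57.CP.PRT
import Pool.Agent.H57.CP.Wrap
import Pool.Agent.H3.CP.AGR
import Pool.Agent.H3.CP.CNT
import Pool.Agent.H3.CP.LFT
import Pool.Agent.H3.CP.TRR
import Pool.Agent.H5.CP.LE
import Pool.Agent.H5.CP.NCE
import Pool.Agent.H5.CP.NRL
import Pool.Agent.H7.CP.NCA
import Pool.Agent.H7.CP.NCD
import Pool.Agent.H7.CP.SYG
import Pool.Agent.H8.CP.Dns
import Pool.Agent.H8.CP.Ngb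
import Pool.Agent.H8.CP.Oax
import Pool.Agent.H8.CP.Pch
import Pool.Agent.H16.CPX.LC
import Pool.Agent.H16.CPX.NCG
import Pool.Agent.H16.CPX.TRP
import Pool.Agent.H17.CP2.NF
import Pool.Agent.H17.CP2.NGA
import Pool.Agent.H17.CP2.NGC
import Pool.Agent.H17.CP2.TRV
import Pool.Agent.H18.CP.DSC
import Pool.Agent.H18.CP.EF
import Pool.Agent.H18.CP.STB
import Pool.Agent.H29.CPX.CTR
import Pool.Agent.H29.CPX.QFN
import Pool.Agent.H36.CP.EA
import Pool.Agent.H36.CP.EC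
import Pool.Agent.H40.CP.DET
import Pool.Agent.H40.CP.ORD
import Pool.Agent.H40.CP.PAR
import Pool.Agent.H40.CP.SSQ
import Pool.Agent.H46.CP.Lin
import Pool.Agent.H46.CP.Rep
import Pool.Agent.H47.CP.DIH
import Pool.Agent.H47.CP.ROO
import Pool.Agent.H78.CP.EG
import Pool.Agent.H78.CP.FNT
import Pool.Agent.H78.CP.LNK
import Pool.Agent.H78.CP.SZO
import Pool.Agent.H78.CP.XCH
import Pool.Agent.H83.CP.LA
import Pool.Agent.H83.CP.LB
import Pool.Agent.H83.CP.LD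
import Pool.Agent.H83.CP.NCF
import Pool.Agent.H83.CP.TIT
import Pool.Agent.H86.CP.BRD
import Pool.Agent.H86.CP.GFN
import Pool.Agent.H86.CP.INF
import Pool.Agent.H92.CP.FLA
import Pool.Agent.H92.CP.FLB
import Pool.Agent.H92.CP.FLC
import Pool.Agent.H92.CP.FLD
import Pool.Agent.H95.CP.CHP
import Pool.Agent.H95.CP.LOR
import Pool.Agent.H95.CP.XFF
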