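import Mathlib
import Pool.Agent.H57.CP.Targets

/-!
# Chiral polyhedra in hyperbolic 3-space: assembly
-/

namespace Pool.Agent.H57.CP

theorem main_asm (hA : T_LA) (hB : T_LB) (hC : T_LC) (hD : T_LD) (hE : T_LE) (hN : T_NEC) (hP : T_PIN)
    (hF : T_FIN) : T_MAIN := by
  have key : ∀ (K : Geo) (p q : ℕ∞) (L : ℝ), IsGeo K → Chi K → Ty K p q → EdgeLen K L → ExistsChiral p q L := by
    intro K p q L hG hCh hT hL
    obtain ⟨h1, h2⟩ := hD K hG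
    obtain ⟨e1, e2, e3⟩ := hE K hG
    exact ⟨Cell K, inferInstance, inferInstance, Cell.rk, Cell.real o, h1, h2, e1 hCh, e2 p q hT, e3 L hL⟩
  have exi : ∀ p q : ℕ∞, Admissible p q → ∃ A B : ℝ, 1 < A ∧ A < B ∧ ∀ L ∈ Set.Ioo A B, ExistsChiral p q L := by
    intro p q ⟨h3, ht, h⟩
    rcases h with rfl | ⟨a, b, rfl, rfl, ha, hb, hab⟩
    · obtain ⟨n, rfl⟩ := ENat.ne_top_iff_exists.mp ht
      obtain ⟨L₀, hL₀, hL⟩ := hP n (by exact_mod_cast h3)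
      refine ⟨L₀, L₀ + 1, hL₀, by linarith, fun L hLL => ?_⟩
      obtain ⟨K, k1, k2, k3, k4⟩ := hL L hLL.1
      exact key K _ _ L k1 k2 k3 k4
    · obtain ⟨A, B, hA1, hAB, hL⟩ := hF a b ⟨ha, hb, hab⟩
      refine ⟨A, B, hA1, hAB, fun L hLL => ?_⟩
      obtain ⟨K, k1, k2, k3, k4⟩ := hL L hLL
      exact key K _ _ L k1 k2 k3 k4
  intro p q
  refine ⟨⟨?_, ?_⟩, exi p q⟩
  · rintro ⟨P, i1, i2, rk, β, h1, h2, h3, h4⟩
    exact hN (Kof rk β) p q (hA P rk β h1 h2) (hB P rk β h1 h2 h3) (hC P rk β p q h1 h2 h4)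
  · intro h
    obtain ⟨A, B, hA1, hAB, hL⟩ := exi p q h
    obtain ⟨P, i1, i2, rk, β, h1, h2, h3, h4, _⟩ := hL ((A + B) / 2) ⟨by linarith, by linarith⟩
    exact ⟨P, i1, i2, rk, β, h1, h2, h3, h4⟩

end Pool.Agent.H57.CP
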